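import Pool.Agent.MP_3ee8cb_gt.CY.Sgl
import Pool.Agent.MP_3ee8cb_gt.DF.Spec

/-! The inequality on the sphere for maps that are only Lipschitz. -/

namespace Pool.Agent.MP_3ee8cb_gt.CY

open MeasureTheory Real Set Metric Filter Topology
open scoped NNReal RealInnerProductSpace

noncomputable section

section
variable {E : Type} [NormedAddCommGroup E] [InnerProductSpace ℝ E]

theorem dun {q : E} (hq : ‖q‖ = 1) : HasFDerivAt (fun x : E => ‖x‖⁻¹ • x)
    (.id ℝ E - (innerSL ℝ q).smulRight q) q := by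
  have h0 := (hasStrictFDerivAt_norm_sq q).hasFDerivAt.sqrt (by simp [hq])
  simp only [sqrt_sq (norm_nonneg _)] at h0
  have h2 := ((hasDerivAt_inv (x := ‖q‖) (by simp [hq])).comp_hasFDerivAt q h0).smul
    (hasFDerivAt_id (𝕜 := ℝ) q)
  refine h2.congr_fderiv (ContinuousLinearMap.ext fun e => ?_)
  simp [hq, sub_eq_add_neg]

theorem pr_le {q : E} (hq : ‖q‖ = 1) :
    ‖(.id ℝ E - (innerSL ℝ q).smulRight q : E →L[ℝ] E)‖ ≤ 1 := by
  refine ContinuousLinearMap.opNorm_le_bound _ zero_le_one fun e => ?_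
  have : ‖e - ⟪q, e⟫ • q‖ ^ 2 ≤ (1 * ‖e‖) ^ 2 := by
    rw [norm_sub_sq_real, real_inner_smul_right, norm_smul, hq, real_inner_comm, mul_one,
      norm_eq_abs, sq_abs]
    nlinarith [sq_nonneg ⟪q, e⟫]
  exact (pow_le_pow_iff_left₀ (norm_nonneg _) (by positivity) two_ne_zero).1 this

/-- The retraction onto a ball does not increase the distance to its points. -/
theorem retr (w : E) {R : ℝ} (hR : 0 ≤ R) :
    ∃ v : E, ‖v‖ ≤ R ∧ ∀ a, ‖a‖ ≤ R → ‖a - v‖ ^ 2 ≤ ‖a - w‖ ^ 2 := by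
  rcases le_or_gt ‖w‖ R with h | h
  · exact ⟨w, h, fun _ _ => le_rfl⟩
  have w0 : 0 < ‖w‖ := hR.trans_lt h
  obtain ⟨t, ht⟩ : ∃ t, t = R / ‖w‖ := ⟨_, rfl⟩
  have e : R = t * ‖w‖ := by rw [ht, div_mul_cancel₀ _ w0.ne']
  have t0 : 0 ≤ t := ht ▸ div_nonneg hR w0.le
  have t1 : t ≤ 1 := ht ▸ (div_le_one w0).2 h.le
  refine ⟨t • w, by rw [norm_smul, norm_of_nonneg t0, e], fun a ha => ?_⟩
  have k : ⟪a, w⟫ ≤ t * ‖w‖ * ‖w‖ :=
    (real_inner_le_norm a w).trans (mul_le_mul_of_nonneg_right (e ▸ ha) w0.le)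
  rw [norm_sub_sq_real, norm_sub_sq_real, real_inner_smul_right, norm_smul, norm_of_nonneg t0]
  nlinarith [mul_nonneg (sub_nonneg.2 t1) (sub_nonneg.2 k),
    mul_nonneg (sq_nonneg (1 - t)) (sq_nonneg ‖w‖)]

variable [FiniteDimensional ℝ E] [MeasurableSpace E] [BorelSpace E]

/-- A property that holds almost everywhere holds almost everywhere on some sphere. -/
theorem ex_rad [Nontrivial E] {p : E → Prop} (h : ∀ᵐ x, p x) : ∃ r : ℝ, 0 < r ∧
    ∀ᵐ u : sphere (0 : E) 1 ∂(volume : Measure E).toSphere, p (r • u.1) := by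
  have mp := (volume : Measure E).measurePreserving_homeomorphUnitSphereProd
  have h1 := (measurePreserving_subtype_coe (μa := (volume : Measure E))
    (measurableSet_singleton (0 : E)).compl).quasiMeasurePreserving.ae (ae_restrict_of_ae h)
  have h2 := (MeasurePreserving.symm (homeomorphUnitSphereProd E).toMeasurableEquiv
    mp).quasiMeasurePreserving.ae h1
  have h3 := Measure.ae_ae_of_ae_prod (Measure.measurePreserving_swap.quasiMeasurePreserving.ae h2)
  have : (ae (Measure.volumeIoiPow (Module.finrank ℝ E - 1))).NeBot := ae_neBot.2 fun e => by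
    have := Measure.volumeIoiPow_apply_Iio (Module.finrank ℝ E - 1) ⟨1, mem_Ioi.2 one_pos⟩
    rw [e, eq_comm] at this
    simp only [one_pow, Measure.coe_zero, Pi.zero_apply, ENNReal.ofReal_eq_zero] at this
    exact absurd this (not_le.2 (by positivity))
  obtain ⟨r, hr⟩ := h3.exists
  exact ⟨r, r.2, hr⟩

omit [MeasurableSpace E] [BorelSpace E] [FiniteDimensional ℝ E] in
/-- A local Lipschitz bound off the origin is a global one. -/
theorem lip_glob {W : Type} [NormedAddCommGroup W] {f : E → W} {L : ℝ≥0} (hf : Continuous f)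
    (h : ∀ x, x ≠ 0 → ∀ᶠ y in 𝓝 x, ‖f y - f x‖ ≤ L * ‖y - x‖) : LipschitzWith L f := by
  have k : ∀ x y : E, (∀ t ∈ Ico (0 : ℝ) 1, x + t • (y - x) ≠ 0) →
      ‖f y - f x‖ ≤ L * ‖y - x‖ := fun x y hxy => by
    have c : Continuous fun t : ℝ => x + t • (y - x) := by fun_prop
    have := image_le_of_liminf_slope_right_le_deriv_boundary (a := 0) (b := 1)
      (f := fun t => ‖f (x + t • (y - x)) - f x‖) (B := fun t => L * ‖y - x‖ * t)
      (B' := fun _ => L * ‖y - x‖) (by fun_prop) (by simp) (by fun_prop)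
      (fun t _ => by simpa using
        ((hasDerivAt_id t).const_mul (L * ‖y - x‖)).hasDerivWithinAt (s := Ici t))
      (fun t ht r hr => Eventually.frequently (by
        filter_upwards [nhdsWithin_le_nhds (c.continuousAt.eventually (h _ (hxy t ht))),
          self_mem_nhdsWithin] with z hz (hz' : t < z)
        have e : x + z • (y - x) - (x + t • (y - x)) = (z - t) • (y - x) := by module
        rw [e, norm_smul, norm_of_nonneg (sub_pos.2 hz').le] at hz
        rw [slope_def_field, div_lt_iff₀ (sub_pos.2 hz')]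
        have := norm_sub_norm_le (f (x + z • (y - x)) - f x) (f (x + t • (y - x)) - f x)
        rw [sub_sub_sub_cancel_right] at this
        nlinarith [mul_lt_mul_of_pos_right hr (sub_pos.2 hz')])) (right_mem_Icc.2 zero_le_one)
    simpa using this
  have k0 : ∀ x : E, ‖f 0 - f x‖ ≤ L * ‖x‖ := fun x => by
    by_cases hx : x = 0
    · simp [hx]
    · have := k x 0 fun t ht e => by
        have e2 : (1 - t) • x = 0 := by rw [← e]; module
        exact (smul_ne_zero (sub_pos.2 ht.2).ne' hx) e2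
      simpa using this
  refine .of_dist_le_mul fun y x => ?_
  rw [dist_eq_norm, dist_eq_norm]
  by_cases hxy : ∀ t ∈ Ico (0 : ℝ) 1, x + t • (y - x) ≠ 0
  · exact k x y hxy
  · push Not at hxy
    obtain ⟨t, ht, e⟩ := hxy
    have e1 : x = (-t) • (y - x) := by rw [neg_smul, eq_neg_iff_add_eq_zero, e]
    have e2 : y = (1 - t) • (y - x) := by
      rw [sub_smul, one_smul, eq_neg_of_add_eq_zero_right e]
      abel
    have n1 := congrArg norm e1
    have n2 := congrArg norm e2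
    rw [norm_smul, norm_neg, norm_of_nonneg ht.1] at n1
    rw [norm_smul, norm_of_nonneg (sub_pos.2 ht.2).le] at n2
    have := norm_sub_le_norm_sub_add_norm_sub (f y) (f 0) (f x)
    have a := k0 y
    rw [norm_sub_rev] at a
    have b := k0 x
    rw [n2] at a
    rw [n1] at b
    linarith

end

open DN DF in
/-- The inequality on the sphere for a Lipschitz map. -/
theorem ksl [Dim] {L c μ : ℝ} {L₀ : ℝ≥0} (hL : (L₀ : ℝ) ≤ L) (ks : SKS L c μ) (hc : 0 ≤ c)
    (hμ : 0 ≤ μ) {F : V → V} (hom : ∀ (r : ℝ) a, r ≠ 0 → a ≠ 0 → F (r • a) = F a)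
    (bd : ∀ u, ‖u‖ = 1 → ‖F u‖ ≤ 3 / 2) (lip : LipschitzWith L₀ fun x => ‖x‖ • F x) :
    ∃ w : V, ‖w‖ ≤ 3 / 2 ∧ Integrable (fun u : sphere (0 : V) 1 =>
      exp (μ * dm * ‖F u - w‖ ^ 2 - c * hs (fderiv ℝ F u))) (volume : Measure V).toSphere ∧
      sph (fun u => exp (μ * dm * ‖F u - w‖ ^ 2 - c * hs (fderiv ℝ F u))) ≤ sph fun _ => 1 := by
  have : Nontrivial V := Module.nontrivial_of_finrank_pos (R := ℝ) (by simp)
  obtain ⟨G, c1, db, cl, lim, par⟩ := moll' lip
  have ev := par 1 fun x => by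
    by_cases hx : x = 0
    · simp [hx]
    · rw [one_smul, norm_neg, ← neg_one_smul ℝ x, hom _ _ (by simp) hx]
  obtain ⟨r, r0, hr⟩ := ex_rad (lim.and lip.ae_differentiableAt)
  have ch : Continuous hs := by
    unfold hs
    fun_prop
  have h0 : ∀ B, 0 ≤ hs B := fun B => Finset.sum_nonneg fun _ _ => sq_nonneg _
  have nz : ∀ {u : V}, ‖u‖ = 1 → u ≠ 0 := fun h e => by simp [e] at h
  obtain ⟨ε, hε⟩ : ∃ ε : ℕ → ℝ, ε = fun k : ℕ => r⁻¹ * (L₀ * (1 / ((k : ℝ) + 1))) := ⟨_, rfl⟩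
  have ε0 : ∀ k, 0 ≤ ε k := fun k => by
    rw [hε]
    positivity
  have εt : Tendsto ε atTop (𝓝 0) := by
    simpa [hε] using (tendsto_one_div_add_atTop_nhds_zero_nat.const_mul (L₀ : ℝ)).const_mul r⁻¹
  obtain ⟨θ, hθ⟩ : ∃ θ : ℕ → ℝ, θ = fun k => 3 / 2 / (3 / 2 + ε k) := ⟨_, rfl⟩
  have θ0 : ∀ k, 0 < θ k ∧ θ k ≤ 1 ∧ θ k * (3 / 2 + ε k) = 3 / 2 := fun k => by
    have := ε0 k
    simp only [hθ]
    exact ⟨by positivity, (div_le_one (by positivity)).2 (by linarith),
      div_mul_cancel₀ _ (by positivity)⟩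
  have θt : Tendsto θ atTop (𝓝 1) := by
    have := (tendsto_const_nhds (x := (3 / 2 : ℝ))).div (εt.const_add (3 / 2)) (by norm_num)
    rw [add_zero, div_self (by norm_num)] at this
    exact hθ ▸ this
  obtain ⟨P, hP⟩ : ∃ P : V → V →L[ℝ] V, P = fun q => .id ℝ V - (innerSL ℝ q).smulRight q :=
    ⟨_, rfl⟩
  have dN : ∀ {u : V}, ‖u‖ = 1 → ∀ {H : V → V} {D}, HasFDerivAt H D (r • u) → ∀ s : ℝ,
      HasFDerivAt (fun x : V => (s * r⁻¹) • H (r • ‖x‖⁻¹ • x)) (s • D.comp (P u)) u :=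
    fun {u} hu H D h s => by
      have e : r • u = r • ‖u‖⁻¹ • u := by simp [hu]
      refine ((HasFDerivAt.comp u (e ▸ h) ((dun hu).const_smul r)).const_smul
        (s * r⁻¹)).congr_fderiv ?_
      ext1 x
      simp only [hP, smul_apply, ContinuousLinearMap.comp_apply, map_smul, smul_smul]
      rw [inv_mul_cancel_right₀ r0.ne']
  obtain ⟨T, hT⟩ : ∃ T : ℕ → V → V, T = fun k x => (θ k * r⁻¹) • G k (r • ‖x‖⁻¹ • x) := ⟨_, rfl⟩
  have dT : ∀ k {u : V}, ‖u‖ = 1 → fderiv ℝ (T k) u = θ k • (fderiv ℝ (G k) (r • u)).comp (P u) :=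
    fun k u hu => hT ▸ (dN hu ((c1 k).differentiable one_ne_zero _).hasFDerivAt _).fderiv
  have cT : ∀ k {u : V}, ‖u‖ = 1 → ‖r⁻¹ • G k (r • u) - F u‖ ≤ ε k := fun k u hu => by
    have := cl k (r • u)
    simp only [norm_smul, hu, mul_one, norm_of_nonneg r0.le, hom r u r0.ne' (nz hu)] at this
    rw [← inv_smul_smul₀ r0.ne' (F u), ← smul_sub, norm_smul, norm_of_nonneg (inv_pos.2 r0).le, hε]
    exact mul_le_mul_of_nonneg_left this (inv_pos.2 r0).le
  have eT : ∀ k {u : V}, ‖u‖ = 1 → T k u = θ k • r⁻¹ • G k (r • u) := fun k u hu => by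
    simp [hT, hu, smul_smul]
  have bT : ∀ k u, ‖u‖ = 1 → ‖T k u‖ ≤ 3 / 2 := fun k u hu => by
    rw [eT k hu, norm_smul, norm_of_nonneg (θ0 k).1.le, ← (θ0 k).2.2]
    refine mul_le_mul_of_nonneg_left ?_ (θ0 k).1.le
    linarith [norm_le_insert' (r⁻¹ • G k (r • u)) (F u), cT k hu, bd u hu]
  have cN : ContDiffOn ℝ 1 (fun x : V => r • ‖x‖⁻¹ • x) {a | a ≠ 0} :=
    ((((contDiffOn_id (s := {a : V | a ≠ 0})).norm ℝ fun _ ha => ha).inv
      fun _ ha => norm_ne_zero_iff.2 ha).smul contDiffOn_id).const_smul r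
  have hT0 : ∀ k, H0 (T k) := fun k => ⟨hT ▸ ((c1 k).comp_contDiffOn cN).const_smul _,
    fun s a hs ha => by
      simp only [hT, norm_smul, mul_inv, smul_smul]
      have a0 := norm_ne_zero_iff.2 ha
      rcases hs.lt_or_gt with h | h
      · rw [← one_smul ℝ (G k ((r * ‖a‖⁻¹) • a)), ← ev, ← neg_smul, norm_of_nonpos h.le]
        congr 3
        field_simp
      · rw [norm_of_nonneg h.le]
        congr 3
        field_simp⟩
  have kk := fun k => ks (T k) (hT0 k) fun u hu => ⟨bT k u hu, by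
    rw [dT k hu, norm_smul, norm_of_nonneg (θ0 k).1.le]
    refine (mul_le_of_le_one_left (norm_nonneg _) (θ0 k).2.1).trans
      ((ContinuousLinearMap.opNorm_comp_le _ _).trans ?_)
    exact (mul_le_of_le_one_right (norm_nonneg _) (hP ▸ pr_le hu)).trans ((db k _).trans hL)⟩
  choose w' hw' using kk
  choose w wb hw using fun k => retr (w' k) (R := 3 / 2) (by norm_num)
  obtain ⟨v, hv, φ, mφ, tφ⟩ := (isCompact_closedBall (0 : V) (3 / 2)).tendsto_subseq
    fun k => mem_closedBall_zero_iff.2 (wb k)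
  have vb := mem_closedBall_zero_iff.1 hv
  have un : ∀ u : sphere (0 : V) 1, ‖u.1‖ = 1 := fun u => mem_sphere_zero_iff_norm.1 u.2
  have cs : ∀ k (z : V), Continuous fun u : sphere (0 : V) 1 =>
      exp (μ * dm * ‖T k u - z‖ ^ 2 - c * hs (fderiv ℝ (T k) u)) := fun k z => by
    have a1 := (hT0 k).c1.continuousOn.comp_continuous continuous_subtype_val fun u => nz (un u)
    have a2 := ch.comp ((DNA.cfd (hT0 k).c1).comp_continuous continuous_subtype_val
      fun u => nz (un u))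
    exact continuous_exp.comp ((((a1.sub continuous_const).norm.pow 2).const_mul _).sub
      (a2.const_mul c))
  have up : ∀ (a z : V) B, ‖a‖ ≤ 3 / 2 → ‖z‖ ≤ 3 / 2 →
      ‖exp (μ * dm * ‖a - z‖ ^ 2 - c * hs B)‖ ≤ exp (μ * dm * 3 ^ 2) := fun a z B ha hz => by
    rw [norm_of_nonneg (exp_pos _).le]
    have k1 : ‖a - z‖ ^ 2 ≤ 3 ^ 2 :=
      pow_le_pow_left₀ (norm_nonneg _) (by linarith [norm_sub_le a z]) 2
    have k2 := mul_le_mul_of_nonneg_left k1 (by positivity : 0 ≤ μ * dm)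
    exact exp_le_exp.2 (by linarith [mul_nonneg hc (h0 B)])
  have tt : ∀ᵐ u : sphere (0 : V) 1 ∂(volume : Measure V).toSphere, Tendsto (fun k =>
      exp (μ * dm * ‖T (φ k) u - w (φ k)‖ ^ 2 - c * hs (fderiv ℝ (T (φ k)) u))) atTop
      (𝓝 (exp (μ * dm * ‖F u - v‖ ^ 2 - c * hs (fderiv ℝ F u)))) := by
    filter_upwards [hr] with u hu
    have a1 : Tendsto (fun k => T k u) atTop (𝓝 (F u)) := by
      have := θt.smul (tendsto_iff_norm_sub_tendsto_zero.2 (squeeze_zero (fun _ => norm_nonneg _)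
        (fun k => cT k (un u)) εt))
      simpa only [eT _ (un u), one_smul] using this
    have a2 : fderiv ℝ F u = (1 : ℝ) • (fderiv ℝ (fun x => ‖x‖ • F x) (r • u.1)).comp (P u) := by
      refine ((dN (un u) hu.2.hasFDerivAt 1).congr_of_eventuallyEq ?_).fderiv
      filter_upwards [isOpen_ne.mem_nhds (nz (un u))] with x hx
      have x0 := norm_ne_zero_iff.2 hx
      rw [smul_smul r, hom _ _ (mul_ne_zero r0.ne' (inv_ne_zero x0)) hx, norm_smul, smul_smul,
        norm_of_nonneg (by positivity)]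
      refine (one_smul ℝ _).symm.trans (congrArg (· • F x) ?_)
      field_simp
    have a3 : Tendsto (fun k => fderiv ℝ (T k) u) atTop (𝓝 (fderiv ℝ F u)) := by
      simp only [dT _ (un u), a2]
      exact θt.smul (((continuous_id.clm_comp_const (P u)).tendsto _).comp hu.1)
    exact (((((a1.comp mφ.tendsto_atTop).sub tφ).norm.pow 2).const_mul _).sub
      (((ch.tendsto _).comp (a3.comp mφ.tendsto_atTop)).const_mul c)).rexp
  refine ⟨v, vb, (integrable_const _).mono' (aestronglyMeasurable_of_tendsto_ae atTop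
    (fun k => (cs (φ k) _).aestronglyMeasurable) tt) (.of_forall fun u =>
      up _ _ _ (bd _ (un u)) vb), le_of_tendsto' (tendsto_integral_of_dominated_convergence
      (fun _ => exp (μ * dm * 3 ^ 2)) (fun k => (cs (φ k) _).aestronglyMeasurable)
      (integrable_const _) (fun k => .of_forall fun u => up _ _ _ (bT _ _ (un u)) (wb _)) tt)
    fun k => le_trans (integral_mono_of_nonneg (.of_forall fun u => (exp_pos _).le)
      ((cs (φ k) (w' (φ k))).integrable_of_hasCompactSupport (.of_compactSpace _))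
      (.of_forall fun u => exp_le_exp.2 ?_)) (hw' (φ k))⟩
  exact sub_le_sub_right (mul_le_mul_of_nonneg_left (hw (φ k) _ (bT _ _ (un u))) (by positivity)) _

end

end Pool.Agent.MP_3ee8cb_gt.CY
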