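import Pool.Agent.MP_3ee8cb_gt.CY.Moll
import Pool.Agent.MP_3ee8cb_gt.DNG.Fin

/-! The area bound for odd spacelike graphs that are only Lipschitz. -/

namespace Pool.Agent.MP_3ee8cb_gt.CY

open MeasureTheory ProbabilityTheory Real Set Metric Filter Topology DNG
open scoped NNReal

noncomputable section

section
variable {E : Type} [NormedAddCommGroup E] [InnerProductSpace ℝ E] [FiniteDimensional ℝ E]
  [MeasurableSpace E] [BorelSpace E]

theorem gauss_ac : stdGaussian E ≪ volume := by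
  obtain ⟨c, -, e⟩ := rG0 E
  exact e ▸ withDensity_absolutelyContinuous _ _

omit [FiniteDimensional ℝ E] [MeasurableSpace E] [BorelSpace E] in
/-- The derivative of a homogeneous map is invariant under dilations, at every point. -/
theorem fd_hom {F : Type} [NormedAddCommGroup F] [NormedSpace ℝ F] {f : E → F}
    (hh : ∀ (r : ℝ) a, f (r • a) = r • f a) (a : E) {r : ℝ} (hr : r ≠ 0) :
    fderiv ℝ f (r • a) = fderiv ℝ f a := by
  have k : ∀ (r : ℝ) a, r ≠ 0 → DifferentiableAt ℝ f (r • a) →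
      HasFDerivAt f (fderiv ℝ f (r • a)) a := fun r a hr h => by
    have h1 := (h.hasFDerivAt.comp a ((hasFDerivAt_id a).const_smul r)).const_smul r⁻¹
    refine (h1.congr_of_eventuallyEq (.of_forall fun x => ?_)).congr_fderiv ?_
    · simp [hh, hr]
    · ext v
      simp [hr]
  by_cases h : DifferentiableAt ℝ f (r • a)
  · exact (k r a hr h).fderiv.symm
  · rw [fderiv_zero_of_not_differentiableAt h, fderiv_zero_of_not_differentiableAt fun h' => h ?_]
    exact (k r⁻¹ (r • a) (inv_ne_zero hr) (by rwa [inv_smul_smul₀ hr])).differentiableAt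

/-- The Gaussian inequality for Lipschitz functions. -/
theorem sg3 (hE : 2 ≤ Module.finrank ℝ E) {τ : E → ℝ} {s : ℝ≥0} (hτ : LipschitzWith s τ)
    (ho : ∀ x, τ (-x) = -τ x) (hs : (s : ℝ) < 1) :
    ∫ x, exp (τ x ^ 2 / 2) * √(1 - ‖fderiv ℝ τ x‖ ^ 2) ∂(stdGaussian E) ≤ 1 := by
  obtain ⟨G, c1, bd, cl, lim, od⟩ := moll hτ
  have s0 : (0 : ℝ) ≤ s := s.2
  have b : ∀ k x, |G k x| ≤ s * ‖x‖ := fun k x => by
    have z : G k 0 = 0 := by
      have := od ho k 0
      rw [neg_zero] at this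
      linarith
    have := (lipschitzWith_of_nnnorm_fderiv_le (𝕜 := ℝ) ((c1 k).differentiable one_ne_zero)
      (C := s) fun x => bd k x).norm_sub_le x 0
    simpa [z] using this
  refine le_of_tendsto' (tendsto_integral_of_dominated_convergence
    (F := fun k x => exp (G k x ^ 2 / 2) * √(1 - ‖fderiv ℝ (G k) x‖ ^ 2))
    (fun x => (1 + ‖x‖ ^ 2) * exp (s ^ 2 * ‖x‖ ^ 2 / 2)) (fun k => ?_)
    (g3_int rG0 (by nlinarith)) (fun k => .of_forall fun x => ?_) ?_) fun k =>
    rG3 rG0 rG1 rG2 E (G k) s hE (c1 k).contDiffOn (od ho k) hs (b k) fun x _ => bd k x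
  · have := (c1 k).continuous
    have := (c1 k).continuous_fderiv one_ne_zero
    exact Continuous.aestronglyMeasurable (by fun_prop)
  · have q1 : √(1 - ‖fderiv ℝ (G k) x‖ ^ 2) ≤ 1 := sqrt_le_one.2 (by nlinarith)
    have q2 : G k x ^ 2 ≤ (s * ‖x‖) ^ 2 := sq_le_sq' (abs_le.1 (b k x)).1 (abs_le.1 (b k x)).2
    rw [norm_of_nonneg (by positivity)]
    refine (mul_le_of_le_one_right (exp_pos _).le q1).trans
      (le_trans ?_ (le_mul_of_one_le_left (exp_pos _).le (by linarith [sq_nonneg ‖x‖])))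
    exact exp_le_exp.2 (by nlinarith)
  · filter_upwards [gauss_ac.ae_le lim] with x hx
    have t : Tendsto (fun k => G k x) atTop (𝓝 (τ x)) := by
      refine tendsto_iff_norm_sub_tendsto_zero.2 (squeeze_zero (fun _ => norm_nonneg _)
        (fun k => cl k x) ?_)
      simpa using tendsto_one_div_add_atTop_nhds_zero_nat.const_mul (s : ℝ)
    exact ((t.pow 2).div_const 2).rexp.mul ((hx.norm.pow 2).const_sub 1).sqrt

end

open DN DNA in
/-- The area of an odd spacelike graph that is Lipschitz. -/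
theorem sgl [Dim] {τ : V → ℝ} {s : ℝ≥0} (hτ : LipschitzWith s τ) (s1 : (s : ℝ) < 1)
    (hom : ∀ (r : ℝ) a, τ (r • a) = r * τ a) :
    Integrable (fun a : sphere (0 : V) 1 => √(1 - ‖fderiv ℝ τ a‖ ^ 2) / √(1 - τ a ^ 2) ^ dm)
      (volume : Measure V).toSphere ∧
    sph (fun a => √(1 - ‖fderiv ℝ τ a‖ ^ 2) / √(1 - τ a ^ 2) ^ dm) ≤ sph fun _ => 1 := by
  have fr : Module.finrank ℝ V = Dim.k + 3 := by simp
  have : Nontrivial V := Module.nontrivial_of_finrank_pos (R := ℝ) (by omega)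
  have s0 : (0 : ℝ) ≤ s := s.2
  have b2 : ∀ x, |τ x| ≤ s * ‖x‖ := fun x => by
    have z : τ 0 = 0 := by simpa using hom 0 0
    simpa [z] using hτ.norm_sub_le x 0
  have cτ := hτ.continuous
  have mτ : Measurable (fderiv ℝ τ) := measurable_fderiv ℝ τ
  have q1 : ∀ x, √(1 - ‖fderiv ℝ τ x‖ ^ 2) ≤ 1 := fun x => sqrt_le_one.2 (by nlinarith)
  have q3 : ∀ u : sphere (0 : V) 1, 1 - (s : ℝ) ^ 2 ≤ 1 - τ u ^ 2 := fun u => by
    have q := abs_le.1 (b2 u)
    rw [mem_sphere_zero_iff_norm.1 u.2, mul_one] at q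
    nlinarith [q.1, q.2]
  have q4 : 0 < 1 - (s : ℝ) ^ 2 := by nlinarith
  refine ⟨(integrable_const (1 / √(1 - (s : ℝ) ^ 2) ^ dm)).mono' ?_ (.of_forall fun u => ?_), ?_⟩
  · have := mτ.comp (measurable_subtype_coe (p := fun x => x ∈ sphere (0 : V) 1))
    have := cτ.measurable.comp (measurable_subtype_coe (p := fun x => x ∈ sphere (0 : V) 1))
    exact Measurable.aestronglyMeasurable (by fun_prop)
  · rw [norm_of_nonneg (by positivity)]
    exact div_le_div₀ zero_le_one (q1 _) (pow_pos (sqrt_pos.2 q4) _)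
      (pow_le_pow_left₀ (sqrt_nonneg _) (sqrt_le_sqrt (q3 u)) _)
  have h := sg3 (by omega) hτ (fun x => by simpa using hom (-1) x) s1
  obtain ⟨c, c0, hc⟩ := rG0 V
  have den : ∀ g : V → ℝ, ∫ x, g x ∂stdGaussian V = c * ∫ x, exp (-(‖x‖ ^ 2 / 2)) * g x :=
    fun g => by
      rw [hc, integral_withDensity_eq_integral_toReal_smul (by fun_prop)
        (.of_forall fun _ => ENNReal.ofReal_lt_top), ← integral_const_mul]
      refine integral_congr_ae (.of_forall fun x => ?_)
      simp only [smul_eq_mul]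
      rw [ENNReal.toReal_ofReal (by positivity), mul_assoc]
  obtain ⟨I, hI⟩ : ∃ I, I = ∫ r in Ioi (0 : ℝ), r ^ (Module.finrank ℝ V - 1) *
    exp (-(r ^ 2 / 2)) := ⟨_, rfl⟩
  have I0 : 0 ≤ I := hI ▸ setIntegral_nonneg measurableSet_Ioi fun r hr =>
    mul_nonneg (pow_nonneg hr.out.le _) (exp_pos _).le
  have k1 : Module.finrank ℝ V - 1 + 1 = dm := by
    rw [fr]
    rfl
  have p1 : c * ((sph fun _ => 1) * I) = 1 := by
    have h1 := den fun _ => 1
    have hi : IntegrableOn (fun x : V => exp (-(‖x‖ ^ 2 / 2)) * 1) {0}ᶜ := by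
      simpa only [one_div, inv_mul_eq_div, mul_one] using
        (int_gauss (E := V) one_half_pos).integrableOn
    rw [polar2 hi, integral_const, probReal_univ, smul_eq_mul, mul_one] at h1
    rw [sph, ← integral_mul_const]
    refine Eq.trans ?_ h1.symm
    refine congrArg _ (integral_congr_ae (.of_forall fun u => ?_))
    have := rad (Module.finrank ℝ V - 1) one_pos
    simp only [one_mul, one_pow, div_one, ← hI] at this ⊢
    rw [← this]
    refine integral_congr_ae (.of_forall fun r => ?_)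
    simp [norm_smul]
  have hi : IntegrableOn (fun x : V => exp (-(‖x‖ ^ 2 / 2)) *
      (exp (τ x ^ 2 / 2) * √(1 - ‖fderiv ℝ τ x‖ ^ 2))) {0}ᶜ := by
    have := cτ.measurable
    refine (int_gauss (E := V) (b := (1 - s ^ 2) / 2) (by nlinarith)).integrableOn.mono'
      (Measurable.aestronglyMeasurable (by fun_prop)) (.of_forall fun x => ?_)
    have q2 : τ x ^ 2 ≤ (s * ‖x‖) ^ 2 := sq_le_sq' (abs_le.1 (b2 x)).1 (abs_le.1 (b2 x)).2
    rw [norm_of_nonneg (by positivity), ← mul_assoc, ← exp_add]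
    exact (mul_le_of_le_one_right (exp_pos _).le (q1 x)).trans (exp_le_exp.2 (by nlinarith))
  rw [den, polar2 hi] at h
  have p2 : ∀ u : sphere (0 : V) 1, ∫ r : Ioi (0 : ℝ), exp (-(‖r.1 • u.1‖ ^ 2 / 2)) *
      (exp (τ (r.1 • u.1) ^ 2 / 2) * √(1 - ‖fderiv ℝ τ (r.1 • u.1)‖ ^ 2))
      ∂Measure.volumeIoiPow (Module.finrank ℝ V - 1) =
      √(1 - ‖fderiv ℝ τ u‖ ^ 2) / √(1 - τ u ^ 2) ^ dm * I := fun u => by
    have hu := mem_sphere_zero_iff_norm.1 u.2
    have q5 : 0 < 1 - τ u ^ 2 := q4.trans_le (q3 u)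
    have := rad (Module.finrank ℝ V - 1) (sqrt_pos.2 q5)
    rw [← hI, k1] at this
    rw [div_mul_comm, ← this, ← integral_mul_const]
    refine integral_congr_ae (.of_forall fun r => ?_)
    have r0 : r.1 ≠ 0 := r.2.out.ne'
    simp only
    rw [fd_hom (f := τ) hom _ r0, hom, ← mul_assoc, ← exp_add, norm_smul, hu, mul_pow √_,
      sq_sqrt q5.le, mul_one, norm_eq_abs, sq_abs]
    congr 2
    ring
  simp only [p2, integral_mul_const] at h
  have I1 : 0 < I := I0.lt_of_ne fun e => by simp [← e] at p1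
  exact le_of_mul_le_mul_right (le_of_mul_le_mul_left (h.trans p1.ge) c0) I1

end

end Pool.Agent.MP_3ee8cb_gt.CY
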