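import Pool.Agent.MP_3ee8cb_gt.CY.Uni
import Pool.Agent.MP_3ee8cb_gt.CYF.Link
import Pool.Agent.MP_3ee8cb_gt.CYX.Two

/-! One pinching constant for all dimensions; the source is arbitrary. -/

namespace Pool.Agent.MP_3ee8cb_gt.CY

open DN (Dim dm)

theorem sloc [Dim] {c K : ℝ} (hc : 0 < c) (hK : 1 ≤ K) : CYF.SLOC c K 2 := by
  intro m lg σ a δ o X ho hj hl ha δ0 δ1 f x bF
  have p : 0 ≤ 1 - 1 / (4 * K ^ 2) := by
    rw [sub_nonneg, div_le_one (by positivity)]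
    nlinarith
  have e : ((⟨√(1 - 1 / (4 * K ^ 2)), Real.sqrt_nonneg _⟩ : NNReal) : ℝ) ^ 2 =
      1 - 1 / (4 * K ^ 2) := Real.sq_sqrt p
  exact ⟨_, e.le, CYX.loc ho hj hl ha x hK (mul_nonneg hc.le δ0) δ1 f bF
    (fun v hv => by rw [DNWI.lg_symm hj hl]; exact bF v hv) e.ge⟩

theorem uni : ∃ δ, 0 < δ ∧ ∀ [Dim], SLN.MainZ δ :=
  uni_of (CYF.fib_high fun _ _ hc hK => ⟨2, sloc hc hK⟩)

end Pool.Agent.MP_3ee8cb_gt.CY
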