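import Pool.Agent.MP_3ee8cb_gt.CY.Defs
import Pool.Agent.MP_3ee8cb_gt.DNOD.DiaG
import Pool.Agent.MP_3ee8cb_gt.DNSC.Sc

/-! Good vectors and the equation in the plane. -/

namespace Pool.Agent.MP_3ee8cb_gt.CY

open DN (Dim dm)

variable [Dim]

open Filter Topology DN
open scoped RealInnerProductSpace

noncomputable section

variable {m m' : MF} {z y : V × V} {φ : V × V → V × V} {a : ℝ}

theorem Z0 (o : m.OK) (z ξ : V × V) : fderiv ℝ (m.Z 0) z ξ = ξ := by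
  rw [show m.Z 0 = id from funext o.zero, fderiv_id]
  rfl

/-- The tangent vector with given horizontal and vertical parts. -/
def tv (m : MF) (z : V × V) (x e : V) : V × V := (m.R z.1 x, e - m.om z.1 (m.R z.1 x) z.2)

theorem hor_tv (o : m.OK) (x e : V) : m.hor z (tv m z x e) = x := by simp [MF.hor, tv, o.SR]

theorem ver_tv (x e : V) : m.ver z (tv m z x e) = e := by simp [MF.ver, tv]

theorem tv_eq (o : m.OK) (z ξ : V × V) : tv m z (m.hor z ξ) (m.ver z ξ) = ξ := by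
  simp [MF.hor, MF.ver, tv, o.RS]

theorem ver_inner (o : m.OK) (z ξ : V × V) : ⟪z.2, m.ver z ξ⟫ = ⟪z.2, ξ.2⟫ := by
  have h := o.skew z.1 ξ.1 z.2 z.2
  rw [real_inner_comm] at h
  change ⟪z.2, ξ.2 + m.om z.1 ξ.1 z.2⟫ = _
  rw [inner_add_right]
  linarith

theorem nb (hz : z.2 ≠ 0) : {w : V × V | w.2 ≠ 0} ∈ 𝓝 z := SC.isOpen_U.mem_nhds hz

theorem Z_ne (j : m.Jac) (hz : z.2 ≠ 0) (t : ℝ) : (m.Z t z).2 ≠ 0 :=
  norm_ne_zero_iff.1 (j.norm t z ▸ norm_ne_zero_iff.2 hz)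

theorem dZ_add (o : m.OK) (z ξ : V × V) (s r : ℝ) :
    fderiv ℝ (m.Z r) (m.Z s z) (fderiv ℝ (m.Z s) z ξ) = fderiv ℝ (m.Z (r + s)) z ξ := by
  rw [show m.Z (r + s) = m.Z r ∘ m.Z s from funext (o.add r s),
    fderiv_comp z (Dia.dZ o r _) (Dia.dZ o s _)]
  rfl

theorem J_add (o : m.OK) (z ξ : V × V) (s r : ℝ) :
    m.J (m.Z s z) (fderiv ℝ (m.Z s) z ξ) r = m.J z ξ (r + s) ∧
    m.J' (m.Z s z) (fderiv ℝ (m.Z s) z ξ) r = m.J' z ξ (r + s) := by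
  simp only [MF.J, MF.J', dZ_add o, o.add, and_self]

theorem dZ_sur (o : m.OK) (z η : V × V) (s : ℝ) : ∃ ξ, fderiv ℝ (m.Z s) z ξ = η := by
  have := dZ_add o (m.Z s z) η (-s) s
  rw [← o.add, neg_add_cancel, o.zero, add_neg_cancel, Z0 o] at this
  exact ⟨_, this⟩

theorem dZ_ne (o : m.OK) {ξ : V × V} (h : ξ ≠ 0) (s : ℝ) : fderiv ℝ (m.Z s) z ξ ≠ 0 := fun e => by
  have := dZ_add o z ξ s (-s)
  rw [e, map_zero, neg_add_cancel, Z0 o] at this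
  exact h this.symm

theorem dif_fl (o : m.OK) (j : m.Jac) (o' : m'.OK) (cf : C0F m m' φ) (hz : z.2 ≠ 0)
    (hd : DifferentiableAt ℝ φ z) (s : ℝ) : DifferentiableAt ℝ φ (m.Z s z) := by
  have e : m.Z (-s) (m.Z s z) = z := by rw [← o.add, neg_add_cancel, o.zero]
  refine ((Dia.dZ o' s _).comp _ (DifferentiableAt.comp (g := φ) (m.Z s z) (e.symm ▸ hd)
    (Dia.dZ o (-s) _))).congr_of_eventuallyEq ?_
  filter_upwards [nb (Z_ne j hz s)] with w hw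
  rw [Function.comp_apply, Function.comp_apply, ← cf.flow s _ (Z_ne j hw _), ← o.add,
    add_neg_cancel, o.zero]

theorem chain (o : m.OK) (j : m.Jac) (o' : m'.OK) (cf : C0F m m' φ) (hz : z.2 ≠ 0)
    (hd : DifferentiableAt ℝ φ z) (t : ℝ) (ξ : V × V) :
    fderiv ℝ φ (m.Z t z) (fderiv ℝ (m.Z t) z ξ) = fderiv ℝ (m'.Z t) (φ z) (fderiv ℝ φ z ξ) := by
  have d1 := (dif_fl o j o' cf hz hd t).hasFDerivAt.comp z (Dia.dZ o t z).hasFDerivAt
  have d2 := ((Dia.dZ o' t (φ z)).hasFDerivAt.comp z hd.hasFDerivAt).congr_of_eventuallyEq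
    (f₁ := φ ∘ m.Z t) (by filter_upwards [nb hz] with w hw using cf.flow t w hw)
  exact DFunLike.congr_fun (d1.unique d2) ξ

theorem ver_phi (o : m.OK) (o' : m'.OK) (cf : C0F m m' φ) (hz : z.2 ≠ 0)
    (hd : DifferentiableAt ℝ φ z) (ξ : V × V) :
    ⟪(φ z).2, m'.ver (φ z) (fderiv ℝ φ z ξ)⟫ = ⟪z.2, m.ver z ξ⟫ := by
  have d1 := (hd.hasFDerivAt.snd).norm_sq
  have d2 := ((hasFDerivAt_snd (𝕜 := ℝ) (p := z)).norm_sq).congr_of_eventuallyEq
    (f₁ := fun w => ‖(φ w).2‖ ^ 2) (by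
      filter_upwards [nb hz] with w hw using by rw [cf.norm w hw])
  have e := DFunLike.congr_fun (d1.unique d2) ξ
  rw [ver_inner o, ver_inner o']
  simpa using e

theorem radial (cf : C0F m m' φ) (hz : z.2 ≠ 0) (hd : DifferentiableAt ℝ φ z) :
    fderiv ℝ φ z (0, z.2) = (0, (φ z).2) := by
  have d0 : ∀ w : V × V, HasDerivAt (fun r : ℝ => (w.1, r • w.2)) (0, w.2) 1 := fun w => by
    simpa using (hasDerivAt_const (1 : ℝ) w.1).prodMk ((hasDerivAt_id (1 : ℝ)).smul_const w.2)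
  have d1 := HasFDerivAt.comp_hasDerivAt_of_eq (1 : ℝ) hd.hasFDerivAt (d0 z) (by simp)
  refine d1.unique ((d0 (φ z)).congr_of_eventuallyEq ?_)
  filter_upwards [Ioi_mem_nhds (zero_lt_one' ℝ)] with r hr using cf.hom r z.1 z.2 hr hz

theorem fr_der (hd : DifferentiableAt ℝ φ z) :
    fderiv ℝ (fr φ z.1) z.2 = (fderiv ℝ φ z).comp (.inr ℝ V V) :=
  (hd.hasFDerivAt.comp z.2 (hasFDerivAt_prodMk_right z.1 z.2)).fderiv

theorem sGD : SGD := by
  intro m m' φ a z o j o' cf dia hz hd s t ξ h1 h2 h3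
  have z0 : z.2 ≠ 0 := fun e => by simp [e] at hz
  have e : fderiv ℝ (m.Z s) z ξ = (0, m.J' z ξ s) := by
    rw [← tv_eq o (m.Z s z) (fderiv ℝ (m.Z s) z ξ), show m.hor (m.Z s z) _ = 0 from h1]
    simp [tv, MF.J']
  have := dia (m.Z s z) ((j.norm s z).trans hz) (dif_fl o j o' cf z0 hd s) (t - s) (m.J' z ξ s)
    ((Dia.tan' o j z ξ s).trans h2) fun e0 => dZ_ne o h3 s (by rw [e, e0]; rfl)
  rwa [← e, chain o j o' cf z0 hd, cf.flow s z z0, (J_add o' _ _ _ _).1, (J_add o' _ _ _ _).2,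
    sub_add_cancel] at this

namespace Gd

variable (g : Gd m m' φ a z)
include g

theorem ne : z.2 ≠ 0 := fun e => by simpa [e] using g.unit

theorem flow (o : m.OK) (j : m.Jac) (o' : m'.OK) (j' : m'.Jac) (cf : C0F m m' φ) (s : ℝ) :
    Gd m m' φ a (m.Z s z) := by
  refine ⟨(j.norm s z).trans g.unit, dif_fl o j o' cf g.ne g.dif s, fun η => ?_, fun η η' => ?_,
    fun r t η h1 h2 h3 => ?_⟩
  · obtain ⟨ξ, rfl⟩ := dZ_sur o z η s
    rw [chain o j o' cf g.ne g.dif, cf.flow s z g.ne]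
    refine (Dia.tan o' j' _ _ s).trans (Eq.trans ?_ (Dia.tan o j z ξ s).symm)
    rw [g.al, ver_phi o o' cf g.ne g.dif]
  · obtain ⟨ξ, rfl⟩ := dZ_sur o z η s
    obtain ⟨ξ', rfl⟩ := dZ_sur o z η' s
    rw [chain o j o' cf g.ne g.dif, chain o j o' cf g.ne g.dif, cf.flow s z g.ne]
    exact (j'.symp _ _ _ s).trans ((g.om ξ ξ').trans (j.symp z ξ ξ' s).symm)
  · obtain ⟨ξ, rfl⟩ := dZ_sur o z η s
    rw [chain o j o' cf g.ne g.dif, cf.flow s z g.ne, (J_add o' _ _ _ _).1, (J_add o' _ _ _ _).2]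
    exact g.lt (r + s) _ ξ ((J_add o z ξ s r).1.symm.trans h1)
      ((Dia.tan' o j z ξ s).symm.trans h2) fun e => h3 (by rw [e, map_zero])

end Gd

end

end Pool.Agent.MP_3ee8cb_gt.CY
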