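import Pool.Agent.MP_3ee8cb_gt.DN.Spec2
import Pool.Agent.MP_3ee8cb_gt.DNSC.Cf

/-! Continuous conjugacies in every dimension: definitions. -/

namespace Pool.Agent.MP_3ee8cb_gt.CY

open DN (Dim dm)

variable [Dim]

open Set Filter Topology MeasureTheory DN
open CR (Met UT ng MinP)
open scoped RealInnerProductSpace

noncomputable section

/-- A continuous homogeneous map that commutes with the flows. -/
structure C0F (m m' : MF) (φ : V × V → V × V) : Prop where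
  cont : ContinuousOn φ {z | z.2 ≠ 0}
  hom : ∀ (r : ℝ) x a, 0 < r → a ≠ 0 → φ (x, r • a) = ((φ (x, a)).1, r • (φ (x, a)).2)
  norm : ∀ z, z.2 ≠ 0 → ‖(φ z).2‖ = ‖z.2‖
  flow : ∀ t z, z.2 ≠ 0 → φ (m.Z t z) = m'.Z t (φ z)

/-- A unit vector where `φ` has a contact and symplectic derivative inside the diamond. -/
structure Gd (m m' : MF) (φ : V × V → V × V) (a : ℝ) (z : V × V) : Prop where
  unit : ‖z.2‖ = 1
  dif : DifferentiableAt ℝ φ z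
  al : ∀ ξ, ⟪(φ z).2, m'.hor (φ z) (fderiv ℝ φ z ξ)⟫ = ⟪z.2, m.hor z ξ⟫
  om : ∀ ξ η, ⟪m'.hor (φ z) (fderiv ℝ φ z ξ), m'.ver (φ z) (fderiv ℝ φ z η)⟫ -
      ⟪m'.ver (φ z) (fderiv ℝ φ z ξ), m'.hor (φ z) (fderiv ℝ φ z η)⟫ =
    ⟪m.hor z ξ, m.ver z η⟫ - ⟪m.ver z ξ, m.hor z η⟫
  lt : ∀ s t ξ, m.J z ξ s = 0 → ⟪z.2, m.ver z ξ⟫ = 0 → ξ ≠ 0 →
    a * ‖m'.J (φ z) (fderiv ℝ φ z ξ) t‖ < ‖m'.J' (φ z) (fderiv ℝ φ z ξ) t‖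

/-- The fibre inequality at every point of differentiability. -/
def Dia (m' : MF) (φ : V × V → V × V) (a : ℝ) : Prop := ∀ w : V × V, ‖w.2‖ = 1 →
  DifferentiableAt ℝ φ w → ∀ t e, ⟪w.2, e⟫ = 0 → e ≠ 0 →
    a * ‖m'.J (φ w) (fderiv ℝ φ w (0, e)) t‖ < ‖m'.J' (φ w) (fderiv ℝ φ w (0, e)) t‖

/-- The last field of `Gd` follows from it. -/
def SGD : Prop := ∀ (m m' : MF) (φ : V × V → V × V) (a : ℝ) (z : V × V), m.OK → m.Jac → m'.OK →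
  C0F m m' φ → Dia m' φ a → ‖z.2‖ = 1 → DifferentiableAt ℝ φ z →
  ∀ s t ξ, m.J z ξ s = 0 → ⟪z.2, m.ver z ξ⟫ = 0 → ξ ≠ 0 →
    a * ‖m'.J (φ z) (fderiv ℝ φ z ξ) t‖ < ‖m'.J' (φ z) (fderiv ℝ φ z ξ) t‖

/-- Pairs of unit vectors. -/
def U2 : Set ((V × V) × V × V) := {p | ‖p.1.2‖ = 1 ∧ ‖p.2.2‖ = 1}

/-- The two point inequalities near `z₀` for a map `ψ`. -/
def Two (m m' : MF) (ψ : V × V → V × V) (a c C ε : ℝ) (z₀ : V × V) : Prop :=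
  ∀ᶠ p in 𝓝[U2] (z₀, z₀),
    c * ‖p.2.2 - p.1.2‖ ^ 2 + a ^ 2 * ‖m'.hor (ψ z₀) (ψ p.2 - ψ p.1)‖ ^ 2 ≤
      (1 + ε) * ‖m'.ver (ψ z₀) (ψ p.2 - ψ p.1)‖ ^ 2 + C * ‖p.2.1 - p.1.1‖ ^ 2 ∧
    |⟪(ψ p.1).2, m'.hor (ψ p.1) (ψ p.2 - ψ p.1)⟫ - ⟪p.1.2, m.hor p.1 (p.2 - p.1)⟫| ≤
      C * (‖p.2 - p.1‖ ^ 2 + ‖ψ p.2 - ψ p.1‖ ^ 2)

/-- The two point inequalities hold at all times; `c` depends on the point only. -/
def LIPF (m m' : MF) (φ : V × V → V × V) (a : ℝ) : Prop := ∀ z₀ : V × V, ‖z₀.2‖ = 1 →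
  ∃ c, 0 < c ∧ ∀ t ε : ℝ, 0 < ε → ∃ C, Two m m' (fun z => m'.Z t (φ z)) a c C ε z₀

/-- `φ` is `F` read in the frames. -/
def Rep {g h : Met dm} (m m' : MF) (F : UT g → UT h) (φ : V × V → V × V) : Prop :=
  ∀ r p, r ≠ 0 → φ (SC.dn m r p) = SC.dn m' r (F p)

/-- A statement about a flip equivariant conjugacy read in frames. -/
def OnR (P : ∀ (h : Met dm) (_ : ℝ → UT h → UT h), MF → MF → (V × V → V × V) → ℝ → Prop) :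
    Prop :=
  On2 fun g h C C' _ _ _ _ _ _ Φ Ψ _ F => ∀ (a : ℝ) (m m' : MF) (φ : V × V → V × V), 0 < a →
    TB.CurvLe h a → m.OK → m.Jac → m'.OK → m'.Jac → Lk g C Φ m → Lk h C' Ψ m' → MinP g Φ →
    (∀ p, F (ng p) = ng (F p)) → Rep m m' F φ → C0F m m' φ → P h Ψ m m' φ a

def SCF0 : Prop := On2 fun g h C C' Γ Λ _ _ _ _ Φ Ψ ρ F => ∀ (m m' : MF) O O', m.OK → m.Jac →
  m'.OK → m'.Jac → Lk g C Φ m → Lk h C' Ψ m' → Act m Γ O → Act m' Λ O' →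
  (∀ p, F (ng p) = ng (F p)) → ∃ φ, C0F m m' φ ∧ Eqv ρ O O' φ ∧ Rep m m' F φ

/-- The flip. -/
def Flp (φ : V × V → V × V) : Prop := ∀ x q, q ≠ 0 → φ (x, -q) = ((φ (x, q)).1, -(φ (x, q)).2)

def SLIP : Prop := OnR fun _ _ m m' φ a => LIPF m m' φ a

/-- A statement about a map with the two point inequalities. -/
def OnL (P : MF → MF → (V × V → V × V) → ℝ → Prop) : Prop :=
  ∀ (m m' : MF) (φ : V × V → V × V) (a : ℝ), m.OK → m.Jac → m'.OK → m'.Jac → C0F m m' φ →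
    Flp φ → 0 < a → LIPF m m' φ a → P m m' φ a

def SGDA : Prop := OnL fun m m' φ a => ∀ᵐ z : V × V, Gd m m' φ a (z.1, ‖z.2‖⁻¹ • z.2)

end

end Pool.Agent.MP_3ee8cb_gt.CY
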