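import Pool.Agent.MP_3ee8cb_gt.CYE.Top
import Pool.Agent.MP_3ee8cb_gt.CY.Lip
import Pool.Agent.MP_3ee8cb_gt.CY.Gd

/-! The two point inequalities and the good vectors, in the form used at the top. -/

namespace Pool.Agent.MP_3ee8cb_gt.CY

open DN (Dim dm)

variable [Dim]

open DN

theorem slp : CYE.SLP LIPF := by
  intro g h C C' Γ Λ _ _ _ _ Φ Ψ ρ F qg qh cg ch dΓ dΛ cj a m m' φ ha k o j o' j' l l' mn fp rp cf
  exact sLIP g h C C' Γ Λ Φ Ψ ρ F qg qh cg ch dΓ dΛ cj a m m' φ ha k o j o' j' l l' mn fp rp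
    ⟨cf.cont, cf.hom, cf.norm, cf.flow⟩

theorem sga : CYE.SGA LIPF := fun _ _ _ _ o j o' _ cf _ ha L =>
  (ae_gd o j o' ⟨cf.cont, cf.hom, cf.norm, cf.flow⟩ ha L).mono fun _ g =>
    ⟨g.unit, g.dif, g.al, g.om, g.lt⟩

theorem mainZ_fib {δ : ℝ} (fib : CYE.SFB LIPF δ) (ode : CYO.SODE) : SLN.MainZ δ :=
  CYE.mainZ_of slp sga fib ode

end Pool.Agent.MP_3ee8cb_gt.CY
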