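import Pool.Agent.MP_3ee8cb_gt.CY.Defs

/-! A continuous conjugacy read in frames. -/

namespace Pool.Agent.MP_3ee8cb_gt.CY

open DN (Dim dm)

variable [Dim]

open Set Filter Topology MeasureTheory DN DN.SC
open CR (Met UT ng MinP tm bus)
open scoped RealInnerProductSpace

theorem ext0 {g h : Met dm} {m m' : MF} (hm : m.OK) (ho : Ort g m) (hm' : m'.OK)
    {F : UT g → UT h} (hF : Continuous F) : ∃ φ : V × V → V × V, ContinuousOn φ {z | z.2 ≠ 0} ∧
      ∀ r p, 0 < r → φ (dn m r p) = dn m' r (F p) := by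
  classical
  refine ⟨fun z => if hz : z.2 ≠ 0 then dn m' ‖z.2‖ (F ⟨nu m z, nu_mem ho hz⟩) else 0, ?_,
    fun r p hr => ?_⟩
  · rw [continuousOn_iff_continuous_domRestrict]
    have c1 : Continuous fun z : {z : V × V | z.2 ≠ 0} => (F ⟨nu m z.1, nu_mem ho z.2⟩).1 :=
      continuous_subtype_val.comp (hF.comp (Continuous.subtype_mk
        (continuous_iff_continuousAt.2 fun z => (nu_cd hm z.2).continuousAt.comp
          continuous_subtype_val.continuousAt) _))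
    have c2 : Continuous fun z : {z : V × V | z.2 ≠ 0} => ‖z.1.2‖ := by fun_prop
    refine (c1.fst.prodMk (c2.smul ((hm'.cS.continuous.comp c1.fst).clm_apply c1.snd))).congr
      fun z => ?_
    have hz : z.1.2 ≠ 0 := z.2
    simp only [domRestrict_apply, dif_pos hz]
    rfl
  · have h0 := dn_ne hm ho hr.ne' p
    have e : (⟨nu m (dn m r p), nu_mem ho h0⟩ : UT g) = p := Subtype.ext (nu_dn hm ho hr p)
    simp only [dif_pos h0]
    rw [e, norm_dn hm ho, abs_of_pos hr]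

theorem sCF0 : SCF0 := by
  intro g h C C' Γ Λ _ _ _ _ Φ Ψ ρ F qg _ _ _ _ _ cj m m' O O' hm hj hm' hj' hl hl' ha ha' hn
  have ho : Ort g m := hl.orth
  have ho' : Ort h m' := hl'.orth
  obtain ⟨φ, c1, k0⟩ := ext0 hm ho hm' F.continuous
  have k1 : ∀ r p, r ≠ 0 → φ (dn m r p) = dn m' r (F p) := fun r p hr => by
    rcases hr.lt_or_gt with h3 | h3
    · rw [← dn_ng, k0 _ _ (neg_pos.2 h3), hn, dn_ng]
    · exact k0 r p h3
  have pos : ∀ {a : V}, a ≠ 0 → 0 < ‖a‖ := fun h => norm_pos_iff.2 h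
  refine ⟨φ, ⟨c1, fun r x v hr hv => ?_, fun z hz => ?_, fun t z hz => ?_⟩, fun γ z hz => ?_, k1⟩
  · obtain ⟨p, e⟩ := exists_dn hm ho (z := (x, v)) hv
    have e2 : (x, r • v) = dn m (r * ‖v‖) p := by
      rw [dn, mul_smul]
      exact congrArg (fun z : V × V => (z.1, r • z.2)) e
    rw [e2, congrArg φ e, k0 _ _ (mul_pos hr (pos hv)), k0 _ _ (pos hv), dn, dn, mul_smul]
  · obtain ⟨p, e⟩ := exists_dn hm ho hz
    rw [congrArg φ e, k0 _ _ (pos hz), norm_dn hm' ho', abs_norm]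
  · obtain ⟨p, e⟩ := exists_dn hm ho hz
    obtain ⟨r, hr⟩ : ∃ r, r = ‖z.2‖ := ⟨_, rfl⟩
    have r0 : 0 < r := hr ▸ pos hz
    rw [← hr] at e
    rw [e, Z_dn hj hl, k0 _ _ r0, k0 _ _ r0, Z_dn hj' hl', cj.flow]
  · obtain ⟨p, e⟩ := exists_dn hm ho hz
    obtain ⟨r, hr⟩ : ∃ r, r = ‖z.2‖ := ⟨_, rfl⟩
    have r0 : 0 < r := hr ▸ pos hz
    rw [← hr] at e
    let q : UT g := ⟨tm γ p.1, (qg.rp.deck.iso γ p.1.1 p.1.2 p.1.2).trans p.2⟩
    rw [e, act_dn ha γ r (q := q) rfl, k0 _ _ r0, k0 _ _ r0, act_dn ha' _ r (cj.equi γ p q rfl)]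

theorem Rep.flp {g h : Met dm} {m m' : MF} (hm : m.OK) (ho : Ort g m) {F : UT g → UT h}
    {φ : V × V → V × V} (r : Rep m m' F φ) : Flp φ := fun x q hq => by
  obtain ⟨p, e⟩ := exists_dn hm ho (z := (x, q)) hq
  have n := norm_ne_zero_iff.2 hq
  have e2 : (x, -q) = dn m (-‖q‖) p := by
    rw [dn, neg_smul]
    exact congrArg (fun z : V × V => (z.1, -z.2)) e
  rw [e2, congrArg φ e, r _ _ (neg_ne_zero.2 n), r _ _ n, dn, dn, neg_smul]


end Pool.Agent.MP_3ee8cb_gt.CY
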