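import Pool.Agent.MP_3ee8cb_gt.DNSI.Int

/-! Averaging of measurable functions. -/

namespace Pool.Agent.MP_3ee8cb_gt.CY

open Set MeasureTheory Function Metric Filter Topology DN DN.SI
open CR (FdP)

noncomputable section

theorem flow_ae {X : Type} [MeasurableSpace X] (ν : Measure X) [IsFiniteMeasure ν]
    (Z : ℝ → X → X) (hZ : Measurable fun p : ℝ × X => Z p.1 p.2) (H : X → ℝ)
    (mH : Measurable H) (C K : ℝ) (bH : ∀ x, |H x| ≤ C)
    (iH : ∀ t, ∫ x, H (Z t x) ∂ν = ∫ x, H x ∂ν)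
    (le : ∀ᵐ x ∂ν, ∀ S, 0 ≤ S → -K ≤ ∫ t in (0 : ℝ)..S, H (Z t x)) : 0 ≤ ∫ x, H x ∂ν := by
  have k : ∀ S, 0 ≤ S → -K * ν.real univ ≤ S * ∫ x, H x ∂ν := fun S hS => by
    have j2 : Integrable (uncurry fun x t => H (Z t x)) (ν.prod (volume.restrict (Ioc 0 S))) :=
      .of_bound (mH.comp (hZ.comp measurable_swap)).aestronglyMeasurable C
        (.of_forall fun _ => bH _)
    have k := integral_mono_ae (integrable_const (-K)) j2.integral_prod_left (le.mono fun x h => by
      have := h S hS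
      rw [intervalIntegral.integral_of_le hS] at this
      exact this)
    have k2 := integral_integral_swap j2
    simp only [iH, integral_const, MeasurableSet.univ, measureReal_restrict_apply, univ_inter,
      Real.volume_real_Ioc_of_le hS, sub_zero, smul_eq_mul] at k2 k
    rw [mul_comm]
    exact k.trans_eq k2
  refine not_lt.1 fun h => ?_
  have := k ((|K * ν.real univ| + 1) / -∫ x, H x ∂ν) (div_nonneg (by positivity) (by linarith))
  rw [div_neg, neg_mul, neg_mul, div_mul_cancel₀ _ h.ne] at this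
  linarith [le_abs_self (K * ν.real univ)]

variable [Dim]

theorem ae_sph {P : V → Prop} (h : ∀ᵐ v : V, v ≠ 0 → ‖v‖ < 1 → P (‖v‖⁻¹ • v)) :
    ∀ᵐ b : sphere (0 : V) 1 ∂(volume : Measure V).toSphere, P b := by
  have h1 := ((volume : Measure V).measurePreserving_homeomorphUnitSphereProd.symm
    (homeomorphUnitSphereProd V).toMeasurableEquiv).quasiMeasurePreserving.ae
    ((ae_restrict_iff_subtype (measurableSet_singleton (0 : V)).compl).1 (ae_restrict_of_ae h))
  filter_upwards [Measure.ae_ae_of_ae_prod h1] with b hb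
  obtain ⟨r, h2, h3⟩ := Measure.exists_mem_of_measure_ne_zero_of_ae
    (s := Iio (⟨1, mem_Ioi.2 one_pos⟩ : Ioi (0 : ℝ))) (by
      rw [Measure.volumeIoiPow_apply_Iio]
      exact (ENNReal.ofReal_pos.2 (by positivity)).ne') (ae_restrict_of_ae hb)
  have r0 : 0 < r.1 := r.2
  have n : ‖r.1 • b.1‖ = r.1 := by
    rw [norm_smul, norm_eq_of_mem_sphere, mul_one, Real.norm_of_nonneg r0.le]
  have := h3 (norm_ne_zero_iff.1 (n.trans_ne r0.ne')) (n.trans_lt h2)
  change P (‖r.1 • b.1‖⁻¹ • r.1 • b.1) at this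
  rwa [n, inv_smul_smul₀ r0.ne'] at this

theorem ae_tr {R : V × V → Prop} (h : ∀ᵐ z : V × V, z ∈ B → R (nr z)) :
    ∀ᵐ x : V, ∀ᵐ b : sphere (0 : V) 1 ∂(volume : Measure V).toSphere, R (x, b) :=
  (Measure.ae_ae_of_ae_prod h).mono fun x hx => ae_sph (P := fun b => R (x, b))
    (hx.mono fun _ hv h0 h1 => hv ⟨h0, h1⟩)

theorem m_wt {u : V × V → ℝ} (hu : Measurable u) : Measurable fun z : V × V => ‖z.2‖ * ex u z :=
  measurable_snd.norm.mul ((hu.comp (measurable_fst.prodMk
    (measurable_snd.norm.inv.smul measurable_snd))).indicator oB.measurableSet)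

theorem b_wt {u : V × V → ℝ} {C : ℝ} (h : ∀ z, |u z| ≤ C) (z : V × V) : |‖z.2‖ * ex u z| ≤ C :=
  have h0 := (abs_nonneg _).trans (h z)
  b_mul h0 (fun w => by
    by_cases hw : w ∈ B
    · rw [ex, indicator_of_mem hw]
      exact h _
    · rwa [ex, indicator_of_notMem hw, abs_zero]) z

theorem line {m : MF} (j : m.Jac) {H : V × V → ℝ} {K : ℝ} {z : V × V} (hK : 0 ≤ K)
    (hd : ∀ S, 0 ≤ S → -K ≤ ∫ t in (0 : ℝ)..S, H (m.Z t (nr z))) (S : ℝ) (hS : 0 ≤ S) :
    -K ≤ ∫ t in (0 : ℝ)..S, ‖(m.Z t z).2‖ * ex H (m.Z t z) := by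
  by_cases hz : z ∈ B
  · simp only [ex_fl j _ hz, j.norm, intervalIntegral.integral_const_mul]
    rw [← smul_eq_mul, intervalIntegral.smul_integral_comp_mul_left (fun u => H (m.Z u (nr z))),
      mul_zero]
    exact hd _ (by positivity)
  · have e : ∀ t, ex H (m.Z t z) = 0 := fun t =>
      indicator_of_notMem (mt (B_iff (j.norm t z)).1 hz) _
    simp only [e, mul_zero, intervalIntegral.integral_zero, neg_nonpos, hK]

/-- The averaging step. -/
theorem avg_ae {m : MF} {Γ : Type} [Group Γ] [MulAction Γ V] {O : Γ → V → V ≃ₗᵢ[ℝ] V} (h : m.OK)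
    (j : m.Jac) (A : Act m Γ O) (fd : FdP dm Γ) {P : V × V → Prop} {H : ℕ → V × V → ℝ}
    {G q : V × V → ℝ} {K : ℕ → ℝ} {C : ℝ} (hP : ∀ᵐ z : V × V, P (nr z))
    (mH : ∀ n, Measurable (H n)) (mG : Measurable G) (mq : Measurable q)
    (bH : ∀ n z, |H n z| ≤ C) (bG : ∀ z, |G z| ≤ C) (bq : ∀ z, |q z| ≤ C) (q0 : ∀ z, 0 ≤ q z)
    (iH : ∀ n (γ : Γ) (z : V × V), ‖z.2‖ = 1 → H n (ac O γ z) = H n z) (K0 : ∀ n, 0 ≤ K n)
    (hd : ∀ n z, P z → ∀ S, 0 ≤ S → -K n ≤ ∫ t in (0 : ℝ)..S, H n (m.Z t z))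
    (lim : ∀ z, Tendsto (fun n => H n z) atTop (𝓝 (2 * G z - q z)))
    (hG : ∀ᵐ x : V, sph (fun a => G (x, a)) ≤ 0) :
    ∀ᵐ x : V, ∀ᵐ b : sphere (0 : V) 1 ∂(volume : Measure V).toSphere,
      P (x, b) ∧ q (x, b) = 0 := by
  obtain ⟨_, fd⟩ := fd
  refine measure_null_of_locally_null _ fun x0 _ => ?_
  obtain ⟨D, mD, bD, nD, cov, un⟩ := fd x0
  suffices k : ∀ᵐ z : V × V, z ∈ B → (nr z).1 ∈ D → P (nr z) ∧ q (nr z) = 0 by
    refine ⟨_, inter_mem_nhdsWithin _ nD, measure_mono_null ?_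
      (ae_iff.1 (ae_tr (R := fun z => z.1 ∈ D → P z ∧ q z = 0) k))⟩
    exact fun x hx hy => hx.1 (hy.mono fun _ hb => hb hx.2)
  have mD' : MeasurableSet (D ×ˢ (univ : Set V)) := mD.prod .univ
  have el : (mu m).restrict (D ×ˢ univ) = ((nu m).prod volume).restrict (D ×ˢ ball 0 1) := by
    rw [mu, Measure.restrict_restrict mD', prod_inter_prod, inter_univ, univ_inter]
  have fin : IsFiniteMeasure ((nu m).restrict D) := by
    refine isFiniteMeasure_restrict.2 (ne_of_lt ?_)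
    have : IsLocallyFiniteMeasure (nu m) := .withDensity_ofReal (cdet h)
    exact bD.measure_lt_top
  have fb : IsFiniteMeasure ((volume : Measure V).restrict (ball 0 1)) :=
    isFiniteMeasure_restrict.2 measure_ball_lt_top.ne
  have fl' : IsFiniteMeasure ((mu m).restrict (D ×ˢ univ)) := by
    rw [el, ← Measure.prod_restrict]
    infer_instance
  have a1 : nu m ≪ volume := withDensity_absolutelyContinuous _ _
  have a2 : volume ≪ nu m := withDensity_absolutelyContinuous'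
    (cdet h).measurable.ennreal_ofReal.aemeasurable (.of_forall fun x =>
      (ENNReal.ofReal_pos.2 (abs_pos.2 (det_ne h x))).ne')
  have hP' : ∀ᵐ z ∂(mu m).restrict (D ×ˢ univ), P (nr z) :=
    el ▸ ae_restrict_of_ae ((a1.prod (.refl _)).ae_le hP)
  have k := fun n => flow_ae ((mu m).restrict (D ×ˢ univ)) m.Z h.cZ.continuous.measurable
    (fun z => ‖z.2‖ * ex (H n) z) (m_wt (mH n)) C (K n) (b_wt (bH n))
    (fun t => avg (mu m) (ac O) (fun x => by simp only [ac, one_smul, A.one])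
      (fun γ δ x => by simp only [ac, mul_smul, A.mul]) (mp_ac A) _ mD'
      (fun x => (cov x.1).imp fun γ hγ => ⟨hγ, trivial⟩) (fun γ x h1 h2 => un γ x.1 h1.1 h2.1)
      (fl h t) (mp_fl h j t) (fun γ x => A.flow γ t x) (fun z => ‖z.2‖ * ex (H n) z)
      fun γ z => by
        rw [i_ex (iH n)]
        exact congrArg (· * _) ((O γ z.1).norm_map z.2))
    (hP'.mono fun z hz => line j (K0 n) (hd n _ hz))
  have jG : Integrable (fun z : V × V => ‖z.2‖ * ex G z) ((mu m).restrict (D ×ˢ univ)) :=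
    .of_bound (m_wt mG).aestronglyMeasurable C (.of_forall (b_wt bG))
  have jq : Integrable (fun z : V × V => ‖z.2‖ * ex q z) ((mu m).restrict (D ×ˢ univ)) :=
    .of_bound (m_wt mq).aestronglyMeasurable C (.of_forall (b_wt bq))
  have k0 := ge_of_tendsto' (tendsto_integral_of_dominated_convergence
    (f := fun z => 2 * (‖z.2‖ * ex G z) - ‖z.2‖ * ex q z) (fun _ => C)
    (fun n => (m_wt (mH n)).aestronglyMeasurable) (integrable_const C)
    (fun n => .of_forall (b_wt (bH n))) (.of_forall fun z => by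
      by_cases hz : z ∈ B
      · have := (lim (nr z)).const_mul ‖z.2‖
        rw [mul_sub, mul_left_comm] at this
        simpa only [ex, indicator_of_mem hz] using this
      · simp only [ex, indicator_of_notMem hz, mul_zero, sub_self, tendsto_const_nhds])) k
  rw [integral_sub (jG.const_mul 2) jq, integral_const_mul] at k0
  have k1 : ∫ z in D ×ˢ univ, ‖z.2‖ * ex G z ∂mu m ≤ 0 := by
    rw [el, ← Measure.prod_restrict] at jG ⊢
    rw [integral_prod _ jG]
    refine integral_nonpos_of_ae ((ae_restrict_of_ae (a1.ae_le hG)).mono fun x hx =>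
      le_of_eq_of_le ?_ (polar volume (fun a => G (x, a)) hx))
    refine setIntegral_congr_fun measurableSet_ball fun v hv => ?_
    by_cases h0 : v = 0
    · simp only [h0, norm_zero, zero_mul]
    · have hb : (x, v) ∈ B := And.intro h0 (mem_ball_zero_iff.1 hv)
      simp only [ex, indicator_of_mem hb, nr]
  have nq : 0 ≤ fun z : V × V => ‖z.2‖ * ex q z := fun z => mul_nonneg (norm_nonneg _)
    (indicator_nonneg (fun z _ => q0 _) z)
  have e0 : ∀ {u : V × V → ℝ} {z : V × V}, z ∈ B → ‖z.2‖ * ex u z = 0 → u (nr z) = 0 :=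
    fun hz e => (indicator_of_mem hz _).symm.trans
      ((mul_eq_zero.1 e).resolve_left (norm_ne_zero_iff.2 hz.1))
  have n1 := integral_nonneg (μ := (mu m).restrict (D ×ˢ univ)) nq
  have k2 := (integral_eq_zero_iff_of_nonneg nq jq).1 (le_antisymm (by linarith) n1)
  have k4 := hP'.and k2
  rw [el, ae_restrict_iff' (mD.prod measurableSet_ball)] at k4
  filter_upwards [(a2.prod (.refl _)).ae_le k4] with z hz h1 h2
  obtain ⟨h3, h4⟩ := hz ⟨h2, mem_ball_zero_iff.2 h1.2⟩
  exact ⟨h3, e0 h1 h4⟩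

end

end Pool.Agent.MP_3ee8cb_gt.CY
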