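import Mathlib

/-! Smoothing of Lipschitz maps: the derivatives converge almost everywhere. -/

namespace Pool.Agent.MP_3ee8cb_gt.CY

open MeasureTheory Set Metric Filter Topology ContinuousLinearMap
open scoped Convolution NNReal

variable {E W : Type} [NormedAddCommGroup E] [InnerProductSpace ℝ E] [FiniteDimensional ℝ E]
  [MeasurableSpace E] [BorelSpace E] [NormedAddCommGroup W] [NormedSpace ℝ W]
  [FiniteDimensional ℝ W]

/-- Bump functions with shrinking radii. -/
noncomputable def bump (E : Type) [NormedAddCommGroup E] (n : ℕ) : ContDiffBump (0 : E) where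
  rIn := 1 / ((n : ℝ) + 1) / 2
  rOut := 1 / ((n : ℝ) + 1)
  rIn_pos := by positivity
  rIn_lt_rOut := half_lt_self (by positivity)

theorem conv_der (φ : ContDiffBump (0 : E)) {u : E → W} {L : ℝ≥0} (hu : LipschitzWith L u)
    (x : E) : HasFDerivAt (φ.normed volume ⋆[lsmul ℝ ℝ, volume] u)
      ((φ.normed volume ⋆[lsmul ℝ ℝ, volume] fderiv ℝ u) x) x := by
  have : CompleteSpace W := FiniteDimensional.complete ℝ W
  have hc := φ.continuous_normed (μ := volume)
  have hcu := hu.continuous
  have hmp : MeasurePreserving (fun a : E => x - a) volume volume :=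
    Measure.measurePreserving_sub_left volume x
  refine (hasFDerivAt_integral_of_dominated_loc_of_lip' (𝕜 := ℝ) (μ := volume)
    (F := fun y a => φ.normed volume a • u (y - a))
    (F' := fun a => φ.normed volume a • fderiv ℝ u (x - a))
    (bound := fun a => φ.normed volume a * L) univ_mem (fun y _ => ?_) ?_ ?_ ?_ ?_ ?_).2
  · exact (by fun_prop : Continuous fun a => φ.normed volume a • u (y - a)).aestronglyMeasurable
  · exact (by fun_prop : Continuous fun a =>
      φ.normed volume a • u (x - a)).integrable_of_hasCompactSupport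
      (φ.hasCompactSupport_normed.smul_right (f' := fun a => u (x - a)))
  · exact hc.aestronglyMeasurable.smul
      ((measurable_fderiv ℝ u).comp (by fun_prop)).aestronglyMeasurable
  · refine Eventually.of_forall fun a y _ => ?_
    rw [← smul_sub, norm_smul, Real.norm_of_nonneg (φ.nonneg_normed a), mul_assoc]
    refine mul_le_mul_of_nonneg_left ?_ (φ.nonneg_normed a)
    simpa using hu.norm_sub_le (y - a) (x - a)
  · exact φ.integrable_normed.mul_const _
  · filter_upwards [hmp.quasiMeasurePreserving.ae (hu.ae_differentiableAt (μ := volume))] with a ha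
    have h1 : HasFDerivAt (fun y : E => u (y - a)) (fderiv ℝ u (x - a)) x := by
      have h2 := ha.hasFDerivAt.comp x ((hasFDerivAt_id x).sub_const a)
      rw [ContinuousLinearMap.comp_id] at h2
      exact h2
    exact h1.const_smul (φ.normed volume a)

theorem conv_le {Z : Type} [NormedAddCommGroup Z] [NormedSpace ℝ Z] (φ : ContDiffBump (0 : E))
    {g : E → Z} {L : ℝ} (hg : ∀ x, ‖g x‖ ≤ L) (x : E) :
    ‖(φ.normed volume ⋆[lsmul ℝ ℝ, volume] g) x‖ ≤ L := by
  rw [convolution_lsmul]
  refine (norm_integral_le_of_norm_le (φ.integrable_normed.mul_const L)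
    (Eventually.of_forall fun a => ?_)).trans ?_
  · rw [norm_smul, Real.norm_of_nonneg (φ.nonneg_normed a)]
    exact mul_le_mul_of_nonneg_left (hg _) (φ.nonneg_normed a)
  · rw [integral_mul_const, φ.integral_normed, one_mul]

/-- A Lipschitz map is a uniform limit of `C¹` maps with the same constant whose derivatives
converge almost everywhere; parity is kept. -/
theorem moll' {H : E → W} {L : ℝ≥0} (hH : LipschitzWith L H) : ∃ G : ℕ → E → W,
    (∀ k, ContDiff ℝ 1 (G k)) ∧ (∀ k x, ‖fderiv ℝ (G k) x‖ ≤ L) ∧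
    (∀ (k : ℕ) x, ‖G k x - H x‖ ≤ L * (1 / ((k : ℝ) + 1))) ∧
    (∀ᵐ x, Tendsto (fun k => fderiv ℝ (G k) x) atTop (𝓝 (fderiv ℝ H x))) ∧
    ∀ ε : ℝ, (∀ x, H (-x) = ε • H x) → ∀ k x, G k (-x) = ε • G k x := by
  have : CompleteSpace W := FiniteDimensional.complete ℝ W
  have hL : ∀ x, ‖fderiv ℝ H x‖ ≤ L := fun x => norm_fderiv_le_of_lipschitz ℝ hH
  have hv : ∀ n x, fderiv ℝ ((bump E n).normed volume ⋆[lsmul ℝ ℝ, volume] H) x =
      ((bump E n).normed volume ⋆[lsmul ℝ ℝ, volume] fderiv ℝ H) x :=
    fun n x => (conv_der (bump E n) hH x).fderiv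
  have hloc : LocallyIntegrable (fderiv ℝ H) volume := by
    refine (locallyIntegrable_const (L : ℝ)).mono (measurable_fderiv ℝ H).aestronglyMeasurable
      (Eventually.of_forall fun x => ?_)
    simpa using hL x
  have hlim := ContDiffBump.ae_convolution_tendsto_right_of_locallyIntegrable (φ := bump E)
    (l := atTop) (K := 2) tendsto_one_div_add_atTop_nhds_zero_nat
    (Eventually.of_forall fun n => by
      change 1 / ((n : ℝ) + 1) ≤ 2 * (1 / ((n : ℝ) + 1) / 2)
      linarith) hloc
  refine ⟨fun n => (bump E n).normed volume ⋆[lsmul ℝ ℝ, volume] H, fun n => ?_, fun n x => ?_,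
    fun n x => ?_, ?_, fun ε ho n x => ?_⟩
  · exact (bump E n).hasCompactSupport_normed.contDiff_convolution_left _
      (bump E n).contDiff_normed hH.continuous.locallyIntegrable
  · rw [hv]
    exact conv_le _ hL x
  · rw [← dist_eq_norm]
    refine (bump E n).dist_normed_convolution_le hH.continuous.aestronglyMeasurable fun y hy => ?_
    exact (hH.dist_le_mul y x).trans (mul_le_mul_of_nonneg_left (mem_ball.1 hy).le L.2)
  · simpa only [hv] using hlim
  · simp only [convolution_lsmul]
    rw [← integral_neg_eq_self, ← integral_smul]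
    refine integral_congr_ae (.of_forall fun a => ?_)
    have e : -x - -a = -(x - a) := by abel
    simp only [(bump E n).normed_neg, e, ho, smul_comm ε]

/-- The same, for odd maps. -/
theorem moll {H : E → W} {L : ℝ≥0} (hH : LipschitzWith L H) : ∃ G : ℕ → E → W,
    (∀ k, ContDiff ℝ 1 (G k)) ∧ (∀ k x, ‖fderiv ℝ (G k) x‖ ≤ L) ∧
    (∀ (k : ℕ) x, ‖G k x - H x‖ ≤ L * (1 / ((k : ℝ) + 1))) ∧
    (∀ᵐ x, Tendsto (fun k => fderiv ℝ (G k) x) atTop (𝓝 (fderiv ℝ H x))) ∧
    ((∀ x, H (-x) = -H x) → ∀ k x, G k (-x) = -G k x) := by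
  obtain ⟨G, a, b, c, d, e⟩ := moll' hH
  exact ⟨G, a, b, c, d, fun ho k x => by simpa using e (-1) (by simpa using ho) k x⟩

end Pool.Agent.MP_3ee8cb_gt.CY
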