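import Pool.Agent.MP_3ee8cb_gt.CZQ.Key
import Pool.Agent.MP_3ee8cb_gt.CY.Alg
import Pool.Agent.MP_3ee8cb_gt.DNSC.Cf

/-! The two point inequality: the lower bounds in the frame. -/

namespace Pool.Agent.MP_3ee8cb_gt.CY

open DN (Dim dm)

variable [Dim]

open Set Filter Topology DN
open CR (Met UT ng bus Riem)
open DN.SC (Ort)
open CZQ (Kit kit_of near csub)
open scoped RealInnerProductSpace

variable {g h : Met dm} {Φ : ℝ → UT g → UT g} {Ψ : ℝ → UT h → UT h} {F : UT g ≃ₜ UT h}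
  {G : LV.Con dm} {a : ℝ} {m m' : MF} {C : TB.Chr dm}

/-- A unit vector in the frame. -/
def fz (m : MF) (p : UT g) : V × V := (p.1.1, m.S p.1.1 p.1.2)

theorem met (o : m.OK) (hg : Ort g m) (y u v : V) : g y u v = ⟪m.S y u, m.S y v⟫ := by
  rw [← hg y, o.RS, o.RS]

theorem fz_cov (o : m.OK) (hg : Ort g m) (p : UT g) (D : V) :
    g p.1.1 p.1.2 D = cv m (fz m p) D := met o hg _ _ _

theorem fz_cont (o : m.OK) : Continuous (fz m : UT g → V × V) := by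
  have c1 : Continuous fun w : UT g => w.1.1 := continuous_fst.comp continuous_subtype_val
  have c2 : Continuous fun w : UT g => w.1.2 := continuous_snd.comp continuous_subtype_val
  exact c1.prodMk ((o.cS.continuous.comp c1).clm_apply c2)

theorem gam (o : m.OK) (l : Lk h C Ψ m) (ch : TB.IsChr h C) (r : Riem h) (c : LV.ChrP h G)
    (y v d D : V) : h y v (G y d D) =
      ⟪m.S y v, m.om y d (m.S y D)⟫ + ⟪m.S y v, fderiv ℝ m.S y d D⟫ := by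
  have e1 : h y v (G y d D) = h y v (C y d D) := by
    have := ch y d D v
    rw [c.compat, c.compat, c.compat, c.symm y D d, c.symm y v d, c.symm y v D, r.symm y (G y d v),
      r.symm y (G y d D), r.symm y (C y d D)] at this
    linarith
  have dR := (o.cR.differentiable (by norm_num) y).hasFDerivAt
  have dS := (o.cS.differentiable (by norm_num) y).hasFDerivAt
  have h1 := dS.clm_apply (dR.clm_apply (hasFDerivAt_const (m.S y D) y))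
  simp only [o.SR] at h1
  have h2 := congrArg (fun L : V →L[ℝ] V => L d) (h1.unique (hasFDerivAt_const (m.S y D) y))
  have h3 : fderiv ℝ m.S y d D + m.S y (fderiv ℝ m.R y d (m.S y D)) = 0 := by
    simpa [add_comm, o.RS] using h2
  rw [e1, met o l.orth, l.conn, o.RS, map_add, ← inner_add_right, add_assoc, add_comm (m.S y _),
    add_assoc, h3, add_zero]

theorem le_R (o : m.OK) (y D : V) : ‖D‖ ≤ ‖m.R y‖ * ‖m.S y D‖ := by
  have := (m.R y).le_opNorm (m.S y D)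
  rwa [o.RS] at this

theorem raw (k : Kit g h Φ Ψ F G a) (ha : 0 < a) (o : m'.OK) (l : Lk h C Ψ m')
    (ch : TB.IsChr h C) (p₀ : UT g) (t : ℝ) {δ : ℝ} (hδ : 0 < δ) {ψ : UT g → V × V}
    (hψ : ∀ p, ψ p = fz m' (Ψ t (F p))) : ∀ᶠ q : UT g × UT g in 𝓝 (p₀, p₀),
    ∃ (x y : V) (κ : V →L[ℝ] ℝ) (H : ℝ), ⟪(ψ p₀).2, x⟫ = 0 ∧ ⟪(ψ p₀).2, y⟫ = 0 ∧
      (∀ ξ, |κ ξ - ⟪m'.ver (ψ p₀) (ψ q.2 - ψ q.1), ξ⟫| ≤ δ * ‖ψ q.2 - ψ q.1‖ * ‖ξ‖) ∧
      H = cv m' (ψ q.2) ((ψ q.2).1 - (ψ q.1).1) - cv m' (ψ p₀)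
        (G (ψ p₀).1 ((ψ q.2).1 - (ψ q.1).1) ((ψ q.2).1 - (ψ q.1).1)) / 2 ∧ ∀ u,
      H - κ x + (qq a δ (ψ p₀).2 (x - m'.hor (ψ p₀) (ψ q.2 - ψ q.1)) + qq a δ (ψ p₀).2 x) ≤
        bus g Φ q.2 u + bus g Φ (ng q.1) u ∧
      -H + κ y + (qq a δ (ψ p₀).2 (y - m'.hor (ψ p₀) (ψ q.2 - ψ q.1)) + qq a δ (ψ p₀).2 y) ≤
        bus g Φ q.1 u + bus g Φ (ng q.2) u := by
  obtain rfl : ψ = fun p => fz m' (Ψ t (F p)) := funext hψ
  have cw : Continuous fun p => Ψ t (F p) := k.jc.comp (continuous_const.prodMk F.continuous)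
  obtain ⟨w₀, hw⟩ : ∃ w₀, w₀ = Ψ t (F p₀) := ⟨_, rfl⟩
  have t1 : Tendsto (fun q : UT g × UT g => Ψ t (F q.1)) (𝓝 (p₀, p₀)) (𝓝 w₀) :=
    hw ▸ (cw.comp continuous_fst).tendsto _
  have t2 : Tendsto (fun q : UT g × UT g => Ψ t (F q.2)) (𝓝 (p₀, p₀)) (𝓝 w₀) :=
    hw ▸ (cw.comp continuous_snd).tendsto _
  simp only [← hw]
  obtain ⟨K, hK⟩ : ∃ K, K = ‖m'.R w₀.1.1‖ := ⟨_, rfl⟩
  have K0 : 0 ≤ K := hK ▸ norm_nonneg _
  obtain ⟨r, r0, hr⟩ := k.low ha w₀ (ε := δ / (K ^ 2 + 1)) (by positivity)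
  obtain ⟨U, hU, δ', d0, hk⟩ := k.key w₀ (half_pos r0)
  have c1 : Continuous fun w : UT h => w.1.1 := continuous_fst.comp continuous_subtype_val
  have n1 := near (c1.continuousAt (x := w₀)) (half_pos r0)
  have n2 := near (((h w₀.1.1 w₀.1.2).continuous.comp c1).continuousAt (x := w₀)) d0
  have n3 := cv_near o (fz m' w₀) (δ := δ / (K + 1)) (by positivity)
  have t3 := ((fz_cont o).tendsto w₀).comp t1 |>.prodMk_nhds (((fz_cont o).tendsto w₀).comp t2)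
  filter_upwards [t1 hU, t2 hU, t1.eventually hr, t2.eventually hr, t1.eventually n1,
    t2.eventually n1, t1.eventually n2, t3.eventually n3] with q u1 u2 l1 l2 b1 b2 b3 b4
  simp only [Function.comp_apply, ← map_sub, Real.norm_eq_abs] at b3 b4
  obtain ⟨z₁, z1, z2, z3⟩ := hk q.1 q.2 t u1 u2 _ b3.le
  obtain ⟨z₂, z4, z5, z6⟩ := hk q.2 q.1 t u2 u1 _ b3.le
  generalize Ψ t (F q.1) = w at *
  generalize Ψ t (F q.2) = w' at *
  have sm : ∀ z y : V, ‖z - w₀.1.1‖ ≤ r / 2 → ‖y - w₀.1.1‖ < r / 2 → ‖z - y‖ ≤ r := by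
    intro z y h1 h2
    have := norm_sub_le_norm_sub_add_norm_sub z w₀.1.1 y
    rw [norm_sub_rev w₀.1.1] at this
    linarith
  have or : ∀ z : V, h w₀.1.1 w₀.1.2 (z - w₀.1.1) = h w₀.1.1 w₀.1.2 (w.1.1 - w₀.1.1) →
      ⟪(fz m' w₀).2, m'.S w₀.1.1 (z - w.1.1)⟫ = 0 := fun z hz => by
    have := fz_cov o l.orth w₀ (z - w.1.1)
    rw [map_sub] at hz this
    rw [map_sub] at hz
    change _ = ⟪(fz m' w₀).2, m'.S w₀.1.1 (z - w.1.1)⟫ at this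
    linarith
  have qd : ∀ D : V, qq a δ (fz m' w₀).2 (m'.S w₀.1.1 D) ≤
      a / 2 * (h w₀.1.1 D D - h w₀.1.1 w₀.1.2 D ^ 2) - δ / (K ^ 2 + 1) * ‖D‖ ^ 2 := fun D => by
    have h1 := pow_le_pow_left₀ (norm_nonneg D) (le_R o w₀.1.1 D) 2
    rw [← hK, mul_pow] at h1
    have h2 : δ / (K ^ 2 + 1) * ‖D‖ ^ 2 ≤ δ * ‖m'.S w₀.1.1 D‖ ^ 2 := by
      rw [div_mul_eq_mul_div, div_le_iff₀ (by positivity)]
      nlinarith [mul_le_mul_of_nonneg_left h1 hδ.le,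
        mul_nonneg hδ.le (sq_nonneg ‖m'.S w₀.1.1 D‖)]
    rw [met o l.orth _ D D, met o l.orth _ _ D, real_inner_self_eq_norm_sq]
    simp only [qq, fz]
    linarith
  obtain ⟨d, hd⟩ : ∃ d, d = w'.1.1 - w.1.1 := ⟨_, rfl⟩
  have sh : ∀ z : V, m'.S w₀.1.1 (z - w.1.1) - m'.hor (fz m' w₀) (fz m' w' - fz m' w) =
      m'.S w₀.1.1 (z - w.1.1 - d) := fun z => by
    rw [map_sub (m'.S w₀.1.1) (z - w.1.1), hd]
    rfl
  have ex : ∀ D : V, h w₀.1.1 w₀.1.2 (G w₀.1.1 (D - d) (D - d)) =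
      h w₀.1.1 w₀.1.2 (G w₀.1.1 D D) - 2 * h w₀.1.1 w₀.1.2 (G w₀.1.1 d D) +
        h w₀.1.1 w₀.1.2 (G w₀.1.1 d d) := fun D => by
    simp only [map_sub, sub_apply, k.chr.symm _ D d]
    ring
  refine ⟨m'.S w₀.1.1 (z₁ - w.1.1), m'.S w₀.1.1 (z₂ - w.1.1),
    (h w'.1.1 w'.1.2 - h w.1.1 w.1.2 - (h w₀.1.1 w₀.1.2).comp (G w₀.1.1 d)).comp (m'.R w₀.1.1), _,
    or _ z2, or _ z5, fun ξ => ?_, rfl, fun u => ?_⟩
  · have h1 := b4 (m'.R w₀.1.1 ξ)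
    have h2 := (m'.R w₀.1.1).le_opNorm ξ
    rw [← hK] at h2
    have h3 : δ / (K + 1) * ‖fz m' w' - fz m' w‖ * ‖m'.R w₀.1.1 ξ‖ ≤
        δ * ‖fz m' w' - fz m' w‖ * ‖ξ‖ := by
      rw [div_mul_eq_mul_div, div_mul_eq_mul_div, div_le_iff₀ (by positivity), mul_assoc _ ‖ξ‖]
      exact mul_le_mul_of_nonneg_left (by nlinarith [norm_nonneg ξ]) (by positivity)
    refine le_trans (le_of_eq ?_) (h1.trans h3)
    congr 1
    simp only [ContinuousLinearMap.comp_apply, sub_apply]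
    rw [gam o l ch k.rh k.chr, fz_cov o l.orth, fz_cov o l.orth, o.SR, hd]
    change _ - ⟪(fz m' w').2 - (fz m' w).2 + m'.om w₀.1.1 (w'.1.1 - w.1.1) (fz m' w₀).2, ξ⟫ = _
    rw [inner_add_left, o.skew]
    simp only [fz, o.SR, map_sub]
    ring
  · have a1 := (l2 _ (sm _ _ z1 b2)).1
    have a2 := (l1 _ (sm _ _ z1 b1)).2
    have a3 := (l1 _ (sm _ _ z4 b1)).1
    have a4 := (l2 _ (sm _ _ z4 b2)).2
    rw [add_sub_cancel] at a1 a2 a3 a4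
    have e1 : ∀ z : V, z - w'.1.1 = z - w.1.1 - d := fun z => by rw [hd]; abel
    rw [e1] at a1 a4
    have q1 := qd (z₁ - w.1.1 - d)
    have q2 := qd (z₁ - w.1.1)
    have q3 := qd (z₂ - w.1.1 - d)
    have q4 := qd (z₂ - w.1.1)
    have s1 := z3 u
    have s2 := z6 u
    rw [sh, sh, ← fz_cov o l.orth, ← fz_cov o l.orth]
    change h w'.1.1 w'.1.2 (w'.1.1 - w.1.1) -
      h w₀.1.1 w₀.1.2 (G w₀.1.1 (w'.1.1 - w.1.1) (w'.1.1 - w.1.1)) / 2 - _ + _ ≤ _ ∧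
      -(h w'.1.1 w'.1.2 (w'.1.1 - w.1.1) -
      h w₀.1.1 w₀.1.2 (G w₀.1.1 (w'.1.1 - w.1.1) (w'.1.1 - w.1.1)) / 2) + _ + _ ≤ _
    rw [← hd]
    generalize z₁ - w.1.1 = D₁ at *
    generalize z₂ - w.1.1 = D₂ at *
    rw [ex, map_sub (h w'.1.1 w'.1.2)] at a1 a4
    simp only [ContinuousLinearMap.comp_apply, sub_apply, o.RS]
    constructor <;> linarith

end Pool.Agent.MP_3ee8cb_gt.CY
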