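import Pool.Agent.MP_3ee8cb_gt.CY.Defs
import Pool.Agent.MP_3ee8cb_gt.DF.Spec
import Pool.Agent.MP_3ee8cb_gt.DZ.Spec
import Pool.Agent.MP_3ee8cb_gt.SLN.Z

/-! Dimension free pinching, arbitrary source, continuous conjugacy: statements of the blocks. -/

namespace Pool.Agent.MP_3ee8cb_gt.CY

open DN (Dim dm)

variable [Dim]

open Set Filter Topology MeasureTheory DN
open DF (hs)
open scoped RealInnerProductSpace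

noncomputable section

/-! ### Analysis on the sphere -/

/-- `ξ` is continuous off the origin and homogeneous of degree one. -/
structure C1H {W : Type} [NormedAddCommGroup W] [NormedSpace ℝ W] (ξ : V → W) : Prop where
  c0 : ContinuousOn ξ {a | a ≠ 0}
  hom : ∀ (r : ℝ) a, r ≠ 0 → a ≠ 0 → ξ (r • a) = r • ξ a

/-- `F` is continuous off the origin and homogeneous of degree zero. -/
structure C0H (F : V → V) : Prop where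
  c0 : ContinuousOn F {a | a ≠ 0}
  hom : ∀ (r : ℝ) a, r ≠ 0 → a ≠ 0 → F (r • a) = F a

/-- A local two point bound off the origin is global. -/
def SLG : Prop := ∀ (W : Type) [NormedAddCommGroup W] (f : V → W) (L : ℝ), Continuous f →
  (∀ x, x ≠ 0 → ∀ᶠ p : V × V in 𝓝 (x, x), ‖f p.1 - f p.2‖ ≤ L * ‖p.1 - p.2‖) →
  ∀ x y, ‖f x - f y‖ ≤ L * ‖x - y‖

/-- The area of an odd spacelike Lipschitz graph. -/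
def SSG : Prop := ∀ (τ : V → ℝ) (s : ℝ), s < 1 → (∀ x y, ‖τ x - τ y‖ ≤ s * ‖x - y‖) →
  (∀ (r : ℝ) a, τ (r • a) = r * τ a) →
  Integrable (fun a : Metric.sphere (0 : V) 1 =>
    √(1 - ‖fderiv ℝ τ a‖ ^ 2) / √(1 - τ a ^ 2) ^ dm) (volume : Measure V).toSphere ∧
  sph (fun a => √(1 - ‖fderiv ℝ τ a‖ ^ 2) / √(1 - τ a ^ 2) ^ dm) ≤ sph fun _ => 1

/-- The inequality on the sphere for Lipschitz maps. -/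
def SKL (L c μ : ℝ) : Prop := ∀ G, C0H G → (∀ u, ‖u‖ = 1 → ‖G u‖ ≤ 3 / 2 ∧
    ∀ᶠ p : V × V in 𝓝 (u, u), ‖G p.1 - G p.2‖ ≤ L * ‖p.1 - p.2‖) → ∃ w : V,
  Integrable (fun u : Metric.sphere (0 : V) 1 =>
    Real.exp (μ * dm * ‖G u - w‖ ^ 2 - c * hs (fderiv ℝ G u))) (volume : Measure V).toSphere ∧
  sph (fun u => Real.exp (μ * dm * ‖G u - w‖ ^ 2 - c * hs (fderiv ℝ G u))) ≤ sph fun _ => 1

def SKSL : Prop := ∀ L c μ : ℝ, 0 ≤ L → 0 ≤ c → 0 ≤ μ → DF.SKS (L + 2) c μ → SKL L c μ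

/-- A locally injective homogeneous map is a homeomorphism. -/
def SCH : Prop := ∀ ξ : V → V, C1H ξ → (∀ a, a ≠ 0 → ξ a ≠ 0) →
  (∀ v, ‖v‖ = 1 → ∀ᶠ p : V × V in 𝓝 (v, v), ξ p.1 = ξ p.2 → p.1 = p.2) →
  ∃ W : V → V, C1H W ∧ (∀ a, a ≠ 0 → W (ξ a) = a) ∧ ∀ u, u ≠ 0 → W u ≠ 0 ∧ ξ (W u) = u

/-- Change of variables as an inequality. -/
def SCVI : Prop := ∀ (ξ : V → V) (w f : V → ℝ), C1H ξ → (∀ a, a ≠ 0 → ξ a ≠ 0) →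
  InjOn ξ {a | a ≠ 0} → Measurable w → (∀ u, 0 ≤ f u) →
  Integrable (fun u : Metric.sphere (0 : V) 1 => f u) (volume : Measure V).toSphere →
  (∀ v, ‖v‖ = 1 → 0 < w v → DifferentiableAt ℝ ξ v ∧
    w v ≤ |(fderiv ℝ ξ v).det| / ‖ξ v‖ ^ dm * f (‖ξ v‖⁻¹ • ξ v)) → sph w ≤ sph f

/-! ### The abstract fibre inequality -/

/-- A cone in de Sitter space with two point bounds. -/
structure Co (K : ℝ) (t : V → ℝ) (ξ F : V → V) : Prop where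
  ht : C1H t
  hx : C1H ξ
  hF : C0H F
  nm : ∀ a, a ≠ 0 → ‖ξ a‖ ^ 2 - t a ^ 2 = ‖a‖ ^ 2
  bd : ∀ v, ‖v‖ = 1 → ‖F v‖ ≤ 3 / 2 ∧ ‖ξ v‖ ≤ K
  loc : ∀ v, ‖v‖ = 1 → ∀ᶠ p : V × V in 𝓝 (v, v), (ξ p.1 = ξ p.2 → p.1 = p.2) ∧
    (t p.1 - t p.2) ^ 2 ≤ (1 - 1 / (4 * K ^ 2)) * ‖ξ p.1 - ξ p.2‖ ^ 2 ∧
    ‖F p.1 - F p.2‖ ≤ 2 * ‖ξ p.1 - ξ p.2‖

/-- Everything is pulled back to the parameter `ξ / ‖ξ‖`. -/
def SPUL : Prop := SLG → SCH → ∀ K t ξ F, 1 ≤ K → Co K t ξ F → ∃ (τ : V → ℝ) (G : V → V),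
  (∀ x y, ‖τ x - τ y‖ ≤ √(1 - 1 / (4 * K ^ 2)) * ‖x - y‖) ∧ (∀ (r : ℝ) a, τ (r • a) = r * τ a) ∧
  C0H G ∧ (∀ u, ‖u‖ = 1 → ‖G u‖ ≤ 3 / 2 ∧
    ∀ᶠ p : V × V in 𝓝 (u, u), ‖G p.1 - G p.2‖ ≤ 2 * K * ‖p.1 - p.2‖) ∧
  InjOn ξ {a | a ≠ 0} ∧ ∀ v, ‖v‖ = 1 → 1 ≤ ‖ξ v‖ ∧ G (‖ξ v‖⁻¹ • ξ v) = F v ∧
    √(1 - τ (‖ξ v‖⁻¹ • ξ v) ^ 2) = ‖ξ v‖⁻¹ ∧ (DifferentiableAt ℝ t v → DifferentiableAt ℝ ξ v →
      DifferentiableAt ℝ F v → (fderiv ℝ ξ v).det ≠ 0 →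
      |τ (‖ξ v‖⁻¹ • ξ v)| ≤ ‖fderiv ℝ τ (‖ξ v‖⁻¹ • ξ v)‖ ∧ ∀ e,
        fderiv ℝ τ (‖ξ v‖⁻¹ • ξ v) (fderiv ℝ ξ v e) = fderiv ℝ t v e ∧
        fderiv ℝ G (‖ξ v‖⁻¹ • ξ v) (fderiv ℝ ξ v e) = ‖ξ v‖ • fderiv ℝ F v e)

/-- A weight: measurable, bounded, not negative. -/
structure Wt (w : V → ℝ) : Prop where
  meas : Measurable w
  pos : ∀ v, 0 ≤ w v
  bdd : ∃ C, ∀ v, w v ≤ C

/-- The data of a centred front with a weight. -/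
structure Dat (K k : ℝ) (t : V → ℝ) (ξ F : V → V) (A B : V → V →L[ℝ] V) (w : V → ℝ) : Prop where
  co : Co K t ξ F
  wt : Wt w
  pt : ∀ v, ‖v‖ = 1 → w v ≠ 0 → DifferentiableAt ℝ t v ∧ DifferentiableAt ℝ ξ v ∧
    DifferentiableAt ℝ F v ∧ (A v).det ≠ 0 ∧ ‖B v‖ ≤ 1 ∧
    w v ≤ |(A v).det| * Real.exp (-(hs (B v) / 4))
  der : ∀ v e, ‖v‖ = 1 → w v ≠ 0 → ‖fderiv ℝ F v e‖ ≤ ‖B v (A v e)‖ ∧
    ‖fderiv ℝ ξ v e‖ ≤ K * ‖A v e‖ ∧ |fderiv ℝ t v e| ≤ K * ‖F v‖ * ‖A v e‖ ∧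
    ‖A v e‖ ^ 2 - k * ‖F v‖ * ‖A v e‖ * ‖B v (A v e)‖ ≤ ‖fderiv ℝ ξ v e‖ ^ 2 - fderiv ℝ t v e ^ 2
  cen : ∀ c : V, sph (fun v => w v * ‖F v‖ ^ 2) ≤ sph fun v => w v * ‖F v - c‖ ^ 2

/-- The strong fibre inequality for abstract data. -/
def Gib (K k : ℝ) : Prop := ∀ t ξ F A B w, Dat K k t ξ F A B w →
  sph w + sph (fun v => w v * ‖F v‖ ^ 2) ≤ sph fun _ => 1

def SGIB : Prop := DF.KH → DF.SALG → DF.SHOL → SLG → SCH → SPUL → SSG → SCVI → ∀ K k μ : ℝ,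
  1 ≤ K → 0 ≤ k → k ≤ 1 / 12 →
  (1 + 4 * K ^ 2) * (32 * dm * k ^ 2 + 8 * K ^ 4 + 1) ≤ μ * dm →
  SKL (2 * K) (1 / (32 * K ^ 2)) μ → Gib K k

/-! ### One front -/

/-- A tangent vector at `w` that is Legendrian and inside the diamond of size `β`. -/
def Leg (m : MF) (w η : V × V) (β : ℝ) : Prop :=
  ⟪w.2, m.hor w η⟫ = 0 ∧ ‖m.hor w η‖ ≤ β * ‖m.ver w η‖

/-- A continuous front whose chords are almost Legendrian. -/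
structure Fr (m : MF) (σ : V → V × V) : Prop where
  c0 : ContinuousOn σ {a | a ≠ 0}
  hom : ∀ (r : ℝ) a, r ≠ 0 → a ≠ 0 → σ (r • a) = ((σ a).1, r • (σ a).2)
  norm : ∀ a, a ≠ 0 → ‖(σ a).2‖ = ‖a‖
  cone : ∀ v, ‖v‖ = 1 → ∀ ε : ℝ, 0 < ε → ∀ᶠ p : V × V in 𝓝 (v, v),
    (σ p.1 = σ p.2 → p.1 = p.2) ∧
      ∃ η, Leg m (σ v) η 1 ∧ ‖σ p.1 - σ p.2 - η‖ ≤ ε * ‖m.ver (σ v) η‖

def SCON : Prop := ∀ (m m' : MF) (φ : V × V → V × V), m.OK → m'.OK → C0F m m' φ → Flp φ →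
  LIPF m m' φ 1 → ∀ x, Fr m' (fr φ x)

/-- First order facts at a good direction. -/
structure Pt (m : MF) (σ : V → V × V) (v : V) : Prop where
  dif : DifferentiableAt ℝ σ v
  leg : ∀ e, ⟪(σ v).2, m.A σ v e⟫ = 0
  ne : (m.A' σ v).det ≠ 0
  bd : ‖m.B σ v‖ ≤ 1

def SPT : Prop := ∀ (m m' : MF) (φ : V × V → V × V) (z : V × V), m.OK → m.Jac → m'.OK → m'.Jac →
  C0F m m' φ → Gd m m' φ 1 z → Pt m' (fr φ z.1) z.2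

/-- The density. -/
def nu (m : MF) (σ : V → V × V) (v : V) : ℝ :=
  |(m.A' σ v).det| * Real.exp (-(hs (m.B σ v) / 4))

/-- A pinched Hadamard space. -/
structure Sp (δ : ℝ) (m : MF) (lg : V × V → V) : Prop where
  ok : m.OK
  jac : m.Jac
  had : m.Had lg
  u0 : m.Up 0
  u1 : m.Up 1
  dn : m.Dn (1 + δ)

/-- The Cartan transport to `o`, as a map of the tangent bundle. -/
structure Xi (m : MF) (lg : V × V → V) (K k : ℝ) (o : V) (Ξ : V × V → ℝ × V) : Prop where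
  c1 : ContDiff ℝ 1 Ξ
  hom : ∀ (r : ℝ) y b, Ξ (y, r • b) = r • Ξ (y, b)
  nm : ∀ w : V × V, ‖(Ξ w).2‖ ^ 2 - (Ξ w).1 ^ 2 = ‖w.2‖ ^ 2
  bd : ∀ w : V × V, ‖w.2‖ = 1 → ‖lg (o, w.1)‖ ≤ 3 / 2 → ‖(Ξ w).2‖ ≤ K
  der : ∀ (w η : V × V) (β : ℝ), ‖w.2‖ = 1 → ‖lg (o, w.1)‖ ≤ 3 / 2 → 0 ≤ β → β ≤ 1 →
    Leg m w η β → ‖(fderiv ℝ Ξ w η).2‖ ≤ K * ‖m.ver w η‖ ∧
      |(fderiv ℝ Ξ w η).1| ≤ K * ‖lg (o, w.1)‖ * ‖m.ver w η‖ ∧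
      (1 - k * ‖lg (o, w.1)‖ * β) * ‖m.ver w η‖ ^ 2 ≤
        ‖(fderiv ℝ Ξ w η).2‖ ^ 2 - (fderiv ℝ Ξ w η).1 ^ 2
  lg : ∀ y u, ‖fderiv ℝ (fun y => lg (o, y)) y u‖ ≤ ‖m.S y u‖

def SXI (c K : ℝ) : Prop := ∀ δ m lg, 0 ≤ δ → δ ≤ 1 → Sp δ m lg → ∀ o,
  ∃ Ξ, Xi m lg K (c * δ) o Ξ

/-- The transported front is a cone with two point bounds. -/
def STWO : Prop := ∀ (m : MF) (lg : V × V → V) (σ : V → V × V) (K k : ℝ) (o : V) Ξ, m.OK →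
  m.Had lg → Fr m σ → 1 ≤ K → 0 ≤ k → k ≤ 1 / 12 → Xi m lg K k o Ξ →
  (∀ v, ‖v‖ = 1 → ‖lg (o, (σ v).1)‖ ≤ 3 / 2) →
  Co K (fun v => (Ξ (σ v)).1) (fun v => (Ξ (σ v)).2) fun v => lg (o, (σ v).1)

/-- The centre of mass of the feet. -/
def SCEN : Prop := ∀ (m : MF) (lg : V × V → V) (y : V → V) (w : V → ℝ) (D : ℝ), m.OK → m.Jac →
  m.Had lg → ContinuousOn y {v | ‖v‖ = 1} → Wt w →
  (∀ v v', ‖v‖ = 1 → ‖v'‖ = 1 → ‖lg (y v, y v')‖ ≤ D) →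
  ∃ o, (∀ v, ‖v‖ = 1 → ‖lg (o, y v)‖ ≤ D) ∧ ∀ c : V,
    sph (fun v => w v * ‖lg (o, y v)‖ ^ 2) ≤ sph fun v => w v * ‖lg (o, y v) - c‖ ^ 2

/-- The strong fibre inequality of a front. -/
def Fib (m : MF) (lg : V × V → V) (σ : V → V × V) : Prop := ∀ w, Wt w →
  (∀ v, ‖v‖ = 1 → w v ≠ 0 → Pt m σ v ∧ w v ≤ nu m σ v) →
  ∃ o, sph w + sph (fun v => w v * ‖lg (o, (σ v).1)‖ ^ 2) ≤ sph fun _ => 1

def SFI (δ : ℝ) : Prop := ∀ m lg σ, Sp δ m lg → Fr m σ →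
  (∀ v v', ‖v‖ = 1 → ‖v'‖ = 1 → ‖lg ((σ v).1, (σ v').1)‖ ≤ 3 / 2) → Fib m lg σ

def SGEO : Prop := STWO → SCEN → ∀ c K δ : ℝ, 0 ≤ c → 1 ≤ K → 0 ≤ δ → δ ≤ 1 → c * δ ≤ 1 / 12 →
  SXI c K → Gib K (c * δ) → SFI δ

/-- In the equality case all feet coincide. -/
def SEN : Prop := ∀ (m : MF) (lg : V × V → V) (σ : V → V × V), m.OK → m.Had lg → Fr m σ →
  Fib m lg σ →
  (∀ᵐ b : Metric.sphere (0 : V) 1 ∂(volume : Measure V).toSphere, Pt m σ b ∧ 1 ≤ nu m σ b) →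
  ∀ v v', ‖v‖ = 1 → ‖v'‖ = 1 → (σ v).1 = (σ v').1

/-! ### The flow -/

/-- The Riccati inequality at a good vector. -/
def SRIC : Prop := ∀ (m m' : MF) (φ : V × V → V × V) (z : V × V), m.OK → m.Jac → m'.OK →
  m'.Jac → C0F m m' φ → m'.Up 1 → Gd m m' φ 1 z →
  ∃ d, HasDerivAt (fun t => m'.tr (fr φ (m.Z t z).1) (m.Z t z).2) d 0 ∧
    d ≤ min (dm : ℝ) (2 * Real.log |(m'.A' (fr φ z.1) z.2).det|) - hs (m'.B (fr φ z.1) z.2)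

/-- The equality case holds almost everywhere. -/
def SODE : Prop := DF.KH → SPT → SRIC → ∀ (m m' : MF) (φ : V × V → V × V) (Γ Λ : Type) [Group Γ]
  [Group Λ] [MulAction Γ V] [MulAction Λ V] (ρ : Γ ≃* Λ) O O', m.OK → m.Jac → m'.OK → m'.Jac →
  C0F m m' φ → Act m Γ O → Act m' Λ O' → Eqv ρ O O' φ → CR.FdP dm Γ → m'.Up 1 →
  (∀ᵐ z : V × V, Gd m m' φ 1 (z.1, ‖z.2‖⁻¹ • z.2)) →
  (∀ x w, Wt w → (∀ v, ‖v‖ = 1 → w v ≠ 0 → Gd m m' φ 1 (x, v) ∧ w v ≤ nu m' (fr φ x) v) →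
    sph w ≤ sph fun _ => 1) →
  ∀ᵐ x : V, ∀ᵐ b : Metric.sphere (0 : V) 1 ∂(volume : Measure V).toSphere,
    Gd m m' φ 1 (x, b) ∧ 1 ≤ nu m' (fr φ x) b

/-- The feet over a point are close. -/
def SD0 : Prop := DZ.OnB fun _ lg _ _ _ A => DZ.BG lg A → ∀ p q, A.pr p = A.pr q →
  ‖lg (A.ft p, A.ft q)‖ ≤ 3 / 2

def STOP : Prop := DF.KH → SCON → SPT → SEN → SRIC → SODE → SD0 → ∀ δ, SFI δ → SLN.MainZ δ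

end

end Pool.Agent.MP_3ee8cb_gt.CY
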