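import Pool.Agent.MP_3ee8cb_gt.CY.Brg
import Pool.Agent.MP_3ee8cb_gt.CYE.Fr
import Pool.Agent.MP_3ee8cb_gt.CYO.Fin
import Pool.Agent.MP_3ee8cb_gt.DF.Fin

/-! One pinching constant for all dimensions, from the fibre inequality in high dimensions. -/

namespace Pool.Agent.MP_3ee8cb_gt.CY

open DN (Dim dm)

theorem uni_of (fib : ∃ (δ : ℝ) (n₀ : ℕ), 0 < δ ∧ ∀ [Dim], n₀ ≤ dm → CYF.SFIB δ) :
    ∃ δ, 0 < δ ∧ ∀ [Dim], SLN.MainZ δ := by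
  obtain ⟨δ, n₀, hδ, fib⟩ := fib
  exact DF.unif (P := fun d δ => @SLN.MainZ d δ) (fun _ _ _ h A => CYE.anti h A)
    (fun d => @DZ.main1 d) n₀ hδ fun d hd => mainZ_fib (CYE.sfb (@fib d hd)) CYO.sODE

/-- The larger of two admissible constants is admissible. -/
theorem max_of {k : ℕ → ℝ} (A : ∀ [Dim], SLN.MainZ (k dm - 1))
    (B : ∃ δ, 0 < δ ∧ ∀ [Dim], SLN.MainZ δ) :
    ∃ k₀ : ℝ, 1 < k₀ ∧ ∀ [Dim], SLN.MainZ (max k₀ (k dm) - 1) := by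
  obtain ⟨δ, hδ, B⟩ := B
  refine ⟨1 + δ, by linarith, ?_⟩
  intro d
  rcases max_choice (1 + δ) (k dm) with h | h <;> rw [h]
  · rw [add_sub_cancel_left]
    exact B
  · exact A

end Pool.Agent.MP_3ee8cb_gt.CY
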